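import Pool.Agent.Y227.MR.Step

set_option autoImplicit false

open Matrix Polynomial

namespace Pool.Agent.Y227.MR

section blocks

variable {k : Type*} [Field k] {κ : Type*} [DecidableEq κ]

/-- Residue at `0` of the pushforward along `t = 1 - w ^ 2`, `x = (1 - w) / 2`. -/
def B2 (b c : Matrix κ κ k) : Matrix (Fin 2) (Fin 2) (Matrix κ κ k) :=
  !![(1 / 2 : k) • (b + c), (1 / 2 : k) • (b - c); (1 / 2 : k) • (b - c), (1 / 2 : k) • (b + c)]

/-- Residue at `1`. -/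
def C2 (b c : Matrix κ κ k) : Matrix (Fin 2) (Fin 2) (Matrix κ κ k) :=
  !![0, -((1 / 2 : k) • (b - c)); 0, (1 / 2 : k) • 1]

/-- Residue at `0` of the pushforward along `t = (27 / 4) w ^ 2 (1 + w)`,
`x = (1 + w) / (4 w)`. -/
def B3 (b c : Matrix κ κ k) : Matrix (Fin 3) (Fin 3) (Matrix κ κ k) :=
  !![-((1 / 2 : k) • (b + c)), (3 / 4 : k) • b - (5 / 4 : k) • c, (9 / 4 : k) • b - (3 / 4 : k) • c;
     0, (1 / 2 : k) • (1 - b - c), (1 / 2 : k) • (1 - (3 : k) • b - c);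
     0, 0, b]

/-- Residue at `1`. -/
def C3 (b c : Matrix κ κ k) : Matrix (Fin 3) (Fin 3) (Matrix κ κ k) :=
  !![(1 / 2 : k) • (b + c), (5 / 4 : k) • c - (3 / 4 : k) • b, (3 / 4 : k) • c - (9 / 4 : k) • b;
     (1 / 9 : k) • (1 - (3 : k) • b + c), (1 / 6 : k) • ((3 : k) • b + (3 : k) • c - 1),
       (1 / 2 : k) • ((3 : k) • b + c - 1);
     (1 / 27 : k) • ((6 : k) • b + (2 : k) • c - (4 : k) • 1),
       (1 / 9 : k) • ((2 : k) • 1 - (3 : k) • b + c), (1 / 3 : k) • ((2 : k) • 1 - (3 : k) • b)]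

variable [Fintype κ]

/-- The relation `c (2 c - 1) = 0` for the first pushforward. -/
lemma C2_sq (h2 : (2 : k) ≠ 0) (b c : Matrix κ κ k) : (2 : k) • (C2 b c * C2 b c) = C2 b c := by
  ext1 i j
  fin_cases i <;> fin_cases j <;>
    simp [C2, Matrix.smul_apply, smul_smul, h2]

lemma C3_sq (h2 : (2 : k) ≠ 0) (h3 : (3 : k) ≠ 0) {b c : Matrix κ κ k}
    (hc : (2 : k) • (c * c) = c) : (2 : k) • (C3 b c * C3 b c) = C3 b c := by
  have hc' : c * c = (1 / 2 : k) • c := by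
    rw [← hc, smul_smul]
    field_simp
    rw [one_smul, hc]
  have h4 : (4 : k) ≠ 0 := by
    rw [show (4 : k) = 2 * 2 by norm_num]; exact mul_ne_zero h2 h2
  have h6 : (6 : k) ≠ 0 := by
    rw [show (6 : k) = 2 * 3 by norm_num]; exact mul_ne_zero h2 h3
  have h9 : (9 : k) ≠ 0 := by
    rw [show (9 : k) = 3 * 3 by norm_num]; exact mul_ne_zero h3 h3
  have h27 : (27 : k) ≠ 0 := by
    rw [show (27 : k) = 3 * 9 by norm_num]; exact mul_ne_zero h3 h9
  ext1 i j
  rw [Matrix.smul_apply, Matrix.mul_apply, Fin.sum_univ_three]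
  fin_cases i <;> fin_cases j <;>
    simp only [C3, Matrix.of_apply, Matrix.cons_val', Matrix.cons_val_zero, Matrix.cons_val_one,
      Matrix.cons_val, Matrix.cons_val_fin_one, Fin.zero_eta, Fin.mk_one, Fin.reduceFinMk,
      smul_mul_assoc, mul_smul_comm, mul_add, add_mul, mul_sub, sub_mul, mul_one, one_mul, hc',
      smul_add, smul_sub, smul_smul] <;>
    match_scalars <;> field_simp <;> ring_nf

lemma T_cube (h3 : (3 : k) ≠ 0) (x y z : Matrix κ κ k) {T : Matrix (Fin 3) (Fin 3) (Matrix κ κ k)}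
    (hT : T = !![0, 0, 0; x, (1 / 3 : k) • 1, 0; y, z, (2 / 3 : k) • 1]) :
    T * ((3 : k) • T - 1) * ((3 : k) • T - 2) = 0 := by
  have e1 : (3 : k) • T - 1 = !![-1, 0, 0; (3 : k) • x, 0, 0; (3 : k) • y, (3 : k) • z, 1] := by
    ext1 i j
    rw [hT]
    fin_cases i <;> fin_cases j <;> simp [Matrix.one_apply, smul_smul, h3] <;>
    match_scalars <;> field_simp <;> norm_num
  have e2 : (3 : k) • T - 2 =
      !![-(2 : k) • 1, 0, 0; (3 : k) • x, -1, 0; (3 : k) • y, (3 : k) • z, 0] := by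
    have h20 : (2 : Matrix (Fin 3) (Fin 3) (Matrix κ κ k)) = (2 : k) • 1 := by
      rw [two_smul, one_add_one_eq_two]
    ext1 i j
    rw [hT, h20]
    fin_cases i <;> fin_cases j <;> simp [Matrix.one_apply, smul_smul, h3] <;>
    match_scalars <;> field_simp <;> norm_num
  rw [e1, e2, hT]
  have e3 : (!![0, 0, 0; x, (1 / 3 : k) • 1, 0; y, z, (2 / 3 : k) • 1] :
      Matrix (Fin 3) (Fin 3) (Matrix κ κ k)) *
      !![-1, 0, 0; (3 : k) • x, 0, 0; (3 : k) • y, (3 : k) • z, 1] =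
      !![0, 0, 0; 0, 0, 0; y + (3 : k) • (z * x), (2 : k) • z, (2 / 3 : k) • 1] := by
    ext1 i j
    rw [Matrix.mul_apply, Fin.sum_univ_three]
    fin_cases i <;> fin_cases j <;> simp [smul_smul, h3] <;>
    match_scalars <;> field_simp <;> norm_num
  rw [e3]
  ext1 i j
  rw [Matrix.mul_apply, Fin.sum_univ_three]
  fin_cases i <;> fin_cases j <;> simp [smul_smul, h3] <;>
  match_scalars <;> field_simp <;> norm_num

lemma S3_cube (h2 : (2 : k) ≠ 0) (h3 : (3 : k) ≠ 0) {b c : Matrix κ κ k} :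
    (B3 b c + C3 b c) * ((3 : k) • (B3 b c + C3 b c) - 1) * ((3 : k) • (B3 b c + C3 b c) - 2) = 0 := by
  have h4 : (4 : k) ≠ 0 := by
    rw [show (4 : k) = 2 * 2 by norm_num]; exact mul_ne_zero h2 h2
  have h6 : (6 : k) ≠ 0 := by
    rw [show (6 : k) = 2 * 3 by norm_num]; exact mul_ne_zero h2 h3
  have h9 : (9 : k) ≠ 0 := by
    rw [show (9 : k) = 3 * 3 by norm_num]; exact mul_ne_zero h3 h3
  have h27 : (27 : k) ≠ 0 := by
    rw [show (27 : k) = 3 * 9 by norm_num]; exact mul_ne_zero h3 h9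
  refine T_cube h3 ((1 / 9 : k) • (1 - (3 : k) • b + c))
    ((1 / 27 : k) • ((6 : k) • b + (2 : k) • c - (4 : k) • 1))
    ((1 / 9 : k) • ((2 : k) • 1 - (3 : k) • b + c)) ?_
  ext1 i j
  fin_cases i <;> fin_cases j <;>
    simp only [B3, C3, Matrix.add_apply, Matrix.of_apply, Matrix.cons_val', Matrix.cons_val_zero,
      Matrix.cons_val_one, Matrix.cons_val, Matrix.cons_val_fin_one, Fin.zero_eta, Fin.mk_one,
      Fin.reduceFinMk] <;>
    match_scalars <;> field_simp <;> ring_nf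

end blocks

section intertwine

variable {k E : Type*} [Field k] [Field E] [Algebra k E] {κ : Type*} [Fintype κ] [DecidableEq κ]

lemma intertwine_of {d : ℕ} {δ : ZDer E} {w x t : E} {b c : Matrix κ κ k}
    {Bm Cm : Matrix (Fin d) (Fin d) (Matrix κ κ k)}
    (h : ∀ (i : Fin d) (l l' : κ), δ (w ^ (i : ℕ)) * (if l = l' then 1 else 0) + w ^ (i : ℕ) *
      (δ x * (x⁻¹ * algebraMap k E (b l l') + (x - 1)⁻¹ * algebraMap k E (c l l'))) =
      ∑ j, δ t * (t⁻¹ * algebraMap k E (Bm i j l l') + (t - 1)⁻¹ * algebraMap k E (Cm i j l l')) *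
        w ^ (j : ℕ)) :
    (wmat d κ w).map δ + wmat d κ w * (δ x • coeff x b c) =
      (δ t • coeff t (Matrix.comp _ _ _ _ _ Bm) (Matrix.comp _ _ _ _ _ Cm)) * wmat d κ w := by
  ext ⟨i, l⟩ l'
  have h1 := h i l l'
  simp only [Matrix.add_apply, Matrix.map_apply, Matrix.mul_apply, wmat, Matrix.of_apply,
    Matrix.smul_apply, smul_eq_mul, coeff, ite_mul, zero_mul, Finset.sum_ite_eq,
    Finset.mem_univ, if_true, Fintype.sum_prod_type, mul_ite, mul_zero, Finset.sum_ite_eq']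
  simp only [Matrix.comp_apply]
  rw [← h1]
  congr 1
  split_ifs <;> simp

end intertwine

end Pool.Agent.Y227.MR
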