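import Mathlib

set_option autoImplicit false

open Matrix NumberField

namespace Pool.Agent.Y227.MR

/-- The matrix `b / t + c / (t - 1)` over a field `E` containing `k`. -/
def coeff {k E : Type*} [Field k] [Field E] [Algebra k E] {ι : Type*} (t : E)
    (b c : Matrix ι ι k) : Matrix ι ι E :=
  t⁻¹ • b.map (algebraMap k E) + (t - 1)⁻¹ • c.map (algebraMap k E)

/-- The `p`-curvature of `v' = (b / t + c / (t - 1)) v` vanishes: the `p`-th iterate of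
`∇ v = v' - (b / t + c / (t - 1)) v` on `k(t) ^ ι` is zero, `p` the characteristic of `k`. -/
def PCurvatureZero {k : Type*} [Field k] {ι : Type*} [Fintype ι] (b c : Matrix ι ι k) : Prop :=
  ∃ D : Derivation k (RatFunc k) (RatFunc k), D RatFunc.X = 1 ∧
    ∀ v : ι → RatFunc k,
      (fun (v : ι → RatFunc k) i => D (v i) - (coeff RatFunc.X b c *ᵥ v) i)^[ringChar k] v = 0

/-- `x' ∈ 𝓞 K ⧸ 𝔭` is the reduction of `x ∈ K` (in particular `x` is integral at `𝔭`). -/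
def IsReduction {K : Type*} [Field K] (𝔭 : Ideal (𝓞 K)) (x : K) (x' : 𝓞 K ⧸ 𝔭) : Prop :=
  ∃ a s : 𝓞 K, s ∉ 𝔭 ∧ algebraMap (𝓞 K) K s * x = algebraMap (𝓞 K) K a ∧
    Ideal.Quotient.mk 𝔭 s * x' = Ideal.Quotient.mk 𝔭 a

/-- Condition (ii) for `df = (b dt / t + c dt / (t - 1)) f`: vanishing `p`-curvature modulo all
the maximal ideals of a nonempty open subset of `Spec (𝓞 K)`. -/
def CondII {K : Type*} [Field K] {ι : Type*} [Fintype ι] (b c : Matrix ι ι K) : Prop :=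
  ∃ g : 𝓞 K, g ≠ 0 ∧ ∀ (𝔭 : Ideal (𝓞 K)) [𝔭.IsMaximal], g ∉ 𝔭 →
    ∃ b' c' : Matrix ι ι (𝓞 K ⧸ 𝔭), (∀ i j, IsReduction 𝔭 (b i j) (b' i j)) ∧
      (∀ i j, IsReduction 𝔭 (c i j) (c' i j)) ∧
      letI : Field (𝓞 K ⧸ 𝔭) := Ideal.Quotient.field 𝔭
      PCurvatureZero b' c'

/-- Condition (i) for `df = (b dt / t + c dt / (t - 1)) f`: over an algebraic closure `Ω` of
`ℂ(t)` with its derivation `D = d/dt` there is an invertible matrix of solutions. -/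
def CondI {K : Type*} [Field K] (σ : K →+* ℂ) {ι : Type*} [Fintype ι] [DecidableEq ι]
    (b c : Matrix ι ι K) : Prop :=
  ∃ (Ω : Type) (_ : Field Ω) (_ : Algebra ℂ Ω) (t : Ω) (D : Derivation ℂ Ω Ω) (Y : Matrix ι ι Ω),
    IsAlgClosed Ω ∧ Transcendental ℂ t ∧
    (∀ x : Ω, IsAlgebraic (IntermediateField.adjoin ℂ {t}) x) ∧ D t = 1 ∧
    Y.det ≠ 0 ∧ Y.map D = coeff t (b.map σ) (c.map σ) * Y

end Pool.Agent.Y227.MR
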