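import Pool.Agent.Y227.MR.ResII

set_option autoImplicit false

open Matrix Polynomial NumberField Module Pool.Agent.W432.PC

namespace Pool.Agent.Y227.MR

section reindex

variable {ι ι' : Type*} [Fintype ι] [DecidableEq ι] [Fintype ι'] [DecidableEq ι']

lemma Full.reindex {F : Type*} [Field F] {D : ZDer F} {M : Matrix ι ι F} (e : ι' ≃ ι)
    (h : Full D M) : Full D (M.submatrix e e) := by
  obtain ⟨Y, h1, h2⟩ := h
  refine ⟨Y.submatrix e e, ?_, ?_⟩
  · rw [Matrix.det_submatrix_equiv_self]; exact h1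
  · rw [Matrix.submatrix_mul_equiv, ← h2]
    rfl

lemma coeff_submatrix {k E : Type*} [Field k] [Field E] [Algebra k E] (t : E) (b c : Matrix ι ι k)
    (e : ι' → ι) : (coeff t b c).submatrix e e = coeff t (b.submatrix e e) (c.submatrix e e) := rfl

lemma CondII.reindex {K : Type*} [Field K] [NumberField K] {b c : Matrix ι ι K} (e : ι' ≃ ι)
    (h : CondII b c) : CondII (b.submatrix e e) (c.submatrix e e) := by
  obtain ⟨g, hg, h⟩ := h
  refine ⟨g, hg, fun 𝔭 h𝔭 hg𝔭 => ?_⟩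
  obtain ⟨b', c', hb, hc, hpc⟩ := h 𝔭 hg𝔭
  letI : Field (𝓞 K ⧸ 𝔭) := Ideal.Quotient.field 𝔭
  obtain ⟨p, hp, hcp⟩ := exists_char 𝔭
  have : Fact p.Prime := ⟨hp⟩
  refine ⟨b'.submatrix e e, c'.submatrix e e, fun i j => hb _ _, fun i j => hc _ _, ?_⟩
  rw [pCurvatureZero_iff_full p, ← coeff_submatrix]
  exact ((pCurvatureZero_iff_full p).mp hpc).reindex e

lemma CondI.of_reindex {K : Type*} [Field K] {σ : K →+* ℂ} {b c : Matrix ι ι K} (e : ι' ≃ ι)
    (h : CondI σ (b.submatrix e e) (c.submatrix e e)) : CondI σ b c := by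
  obtain ⟨Ω, i1, i2, t, D, Y, h1, h2, h3, h4, h5, h6⟩ := h
  have h7 : Full (toZ D) (coeff t ((b.submatrix e e).map σ) ((c.submatrix e e).map σ)) :=
    ⟨Y, h5, h6⟩
  obtain ⟨Z, h8, h9⟩ := h7.reindex e.symm
  refine ⟨Ω, i1, i2, t, D, Z, h1, h2, h3, h4, h8, ?_⟩
  have h10 : (coeff t ((b.submatrix e e).map σ) ((c.submatrix e e).map σ)).submatrix e.symm e.symm =
      coeff t (b.map σ) (c.map σ) := by
    ext i j
    simp [coeff]
  rw [h10] at h9
  exact h9

end reindex

lemma two_submatrix {R : Type*} [Ring R] {ι ι' : Type*} [Fintype ι] [DecidableEq ι] [Fintype ι']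
    [DecidableEq ι'] (e : ι' ≃ ι) :
    (2 : Matrix ι' ι' R) = (2 : Matrix ι ι R).submatrix e e := by
  rw [← one_add_one_eq_two (R := Matrix ι' ι' R), ← one_add_one_eq_two (R := Matrix ι ι R)]
  conv_lhs => rw [← Matrix.submatrix_one_equiv e]
  rfl

/-- The explicit reduction to systems of modular type. -/
theorem pointwise (K : Type) [Field K] [NumberField K] (σ : K →+* ℂ) (r : ℕ)
    (b c : Matrix (Fin r) (Fin r) K) :
    ∃ P Q : Matrix (Fin (6 * r * finrank ℚ K)) (Fin (6 * r * finrank ℚ K)) ℚ,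
      P * P = P ∧ Q * (Q - 1) * (Q - 2) = 0 ∧
      (CondII b c → CondII ((1 / 3 : ℚ) • Q - (1 / 2 : ℚ) • P) ((1 / 2 : ℚ) • P)) ∧
      (CondI (algebraMap ℚ ℂ) ((1 / 3 : ℚ) • Q - (1 / 2 : ℚ) • P) ((1 / 2 : ℚ) • P) →
        CondI σ b c) := by
  classical
  -- the three steps
  set b1 := Matrix.comp _ _ _ _ _ (B2 b c) with hb1
  set c1 := Matrix.comp _ _ _ _ _ (C2 b c) with hc1
  have hsq1 : (2 : K) • (c1 * c1) = c1 := by
    have h1 := congrArg (Matrix.compRingEquiv (Fin 2) (Fin r) K) (C2_sq (two_ne_zero) b c)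
    rw [two_smul, map_add, map_mul] at h1
    rw [two_smul]
    exact h1
  set b2 := Matrix.comp _ _ _ _ _ (B3 b1 c1) with hb2
  set c2 := Matrix.comp _ _ _ _ _ (C3 b1 c1) with hc2
  have hsq2 : (2 : K) • (c2 * c2) = c2 := by
    have h1 := congrArg (Matrix.compRingEquiv (Fin 3) (Fin 2 × Fin r) K)
      (C3_sq (two_ne_zero) (three_ne_zero) (b := b1) hsq1)
    rw [two_smul, map_add, map_mul] at h1
    rw [two_smul]
    exact h1
  have hcub2 : (b2 + c2) * ((3 : K) • (b2 + c2) - 1) * ((3 : K) • (b2 + c2) - 2) = 0 := by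
    have h1 := congrArg (Matrix.compRingEquiv (Fin 3) (Fin 2 × Fin r) K)
      (S3_cube (k := K) (two_ne_zero) (three_ne_zero) (b := b1) (c := c1))
    have h3 : ∀ x : Matrix (Fin 3) (Fin 3) (Matrix (Fin 2 × Fin r) (Fin 2 × Fin r) K),
        (3 : K) • x = 3 * x := by
      intro x
      rw [show (3 : Matrix (Fin 3) (Fin 3) (Matrix (Fin 2 × Fin r) (Fin 2 × Fin r) K)) =
        (3 : K) • 1 by
          rw [show (3 : K) = 1 + 1 + 1 by norm_num, add_smul, add_smul, one_smul]; norm_num,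
        Matrix.smul_mul, Matrix.one_mul]
    have h3' : ∀ x : Matrix (Fin 3 × (Fin 2 × Fin r)) (Fin 3 × (Fin 2 × Fin r)) K,
        (3 : K) • x = 3 * x := by
      intro x
      rw [show (3 : Matrix (Fin 3 × (Fin 2 × Fin r)) (Fin 3 × (Fin 2 × Fin r)) K) =
        (3 : K) • 1 by
          rw [show (3 : K) = 1 + 1 + 1 by norm_num, add_smul, add_smul, one_smul]; norm_num,
        Matrix.smul_mul, Matrix.one_mul]
    rw [h3, map_mul, map_mul, map_add, map_sub, map_sub, map_mul, map_add, map_one, map_zero,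
      map_ofNat, map_ofNat] at h1
    rw [h3']
    exact h1
  set b3 := resMat b2 with hb3
  set c3 := resMat c2 with hc3
  have hsq3 : 2 * (c3 * c3) = c3 := by
    have h1 := congrArg (resMat (K := K)) hsq2
    rw [two_smul, map_add, map_mul] at h1
    rw [two_mul]
    exact h1
  have hcub3 : (b3 + c3) * (3 * (b3 + c3) - 1) * (3 * (b3 + c3) - 2) = 0 := by
    have h1 := congrArg (resMat (K := K)) hcub2
    have h3' : ∀ x : Matrix (Fin 3 × (Fin 2 × Fin r)) (Fin 3 × (Fin 2 × Fin r)) K,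
        (3 : K) • x = 3 * x := by
      intro x
      rw [show (3 : Matrix (Fin 3 × (Fin 2 × Fin r)) (Fin 3 × (Fin 2 × Fin r)) K) =
        (3 : K) • 1 by
          rw [show (3 : K) = 1 + 1 + 1 by norm_num, add_smul, add_smul, one_smul]; norm_num,
        Matrix.smul_mul, Matrix.one_mul]
    rw [h3', map_mul, map_mul, map_add, map_sub, map_sub, map_mul, map_add, map_one, map_zero,
      map_ofNat, map_ofNat] at h1
    exact h1
  -- reindexing
  have hcard : Fintype.card ((Fin 3 × (Fin 2 × Fin r)) × Nu K) = 6 * r * finrank ℚ K := by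
    rw [Fintype.card_prod, Fintype.card_prod, Fintype.card_prod, Fintype.card_fin, Fintype.card_fin,
      Fintype.card_fin, ← Module.finrank_eq_card_basis (integralBasis K)]
    ring
  let e : Fin (6 * r * finrank ℚ K) ≃ (Fin 3 × (Fin 2 × Fin r)) × Nu K :=
    (Fintype.equivFinOfCardEq hcard).symm
  -- the matrices
  let P := (2 * c3).submatrix e e
  let Q := (3 * (b3 + c3)).submatrix e e
  have hP : (1 / 2 : ℚ) • P = c3.submatrix e e := by
    have h1 : (2 : Matrix ((Fin 3 × (Fin 2 × Fin r)) × Nu K) ((Fin 3 × (Fin 2 × Fin r)) × Nu K) ℚ) *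
        c3 = (2 : ℚ) • c3 := by rw [two_mul, two_smul]
    change (1 / 2 : ℚ) • (2 * c3).submatrix e e = _
    rw [h1]
    ext i j
    simp
  have hQ : (1 / 3 : ℚ) • Q - (1 / 2 : ℚ) • P = b3.submatrix e e := by
    have h1 : (3 : Matrix ((Fin 3 × (Fin 2 × Fin r)) × Nu K) ((Fin 3 × (Fin 2 × Fin r)) × Nu K) ℚ) *
        (b3 + c3) = (3 : ℚ) • (b3 + c3) := by
      rw [show (3 : ℚ) = 1 + 1 + 1 by norm_num, add_smul, add_smul, one_smul,
        show (3 : Matrix ((Fin 3 × (Fin 2 × Fin r)) × Nu K) ((Fin 3 × (Fin 2 × Fin r)) × Nu K) ℚ) =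
          1 + 1 + 1 by norm_num, add_mul, add_mul, one_mul]
    rw [hP]
    change (1 / 3 : ℚ) • (3 * (b3 + c3)).submatrix e e - _ = _
    rw [h1]
    ext i j
    simp only [Matrix.sub_apply, Matrix.smul_apply, Matrix.submatrix_apply, Matrix.add_apply,
      smul_eq_mul]
    ring
  refine ⟨P, Q, ?_, ?_, ?_, ?_⟩
  · change (2 * c3).submatrix e e * (2 * c3).submatrix e e = (2 * c3).submatrix e e
    rw [Matrix.submatrix_mul_equiv]
    congr 1
    calc 2 * c3 * (2 * c3) = 2 * (2 * (c3 * c3)) := by noncomm_ring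
      _ = 2 * c3 := by rw [hsq3]
  · have h1 : Q - 1 = (3 * (b3 + c3) - 1).submatrix e e := by
      change (3 * (b3 + c3)).submatrix e e - 1 = _
      rw [Matrix.submatrix_sub]
      congr 1
      exact (Matrix.submatrix_one_equiv e).symm
    have h2 : Q - 2 = (3 * (b3 + c3) - 2).submatrix e e := by
      change (3 * (b3 + c3)).submatrix e e - 2 = _
      rw [Matrix.submatrix_sub]
      congr 1
      exact two_submatrix e
    rw [h1, h2]
    change (3 * (b3 + c3)).submatrix e e * _ * _ = 0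
    rw [Matrix.submatrix_mul_equiv, Matrix.submatrix_mul_equiv]
    have h3 : 3 * (b3 + c3) * (3 * (b3 + c3) - 1) * (3 * (b3 + c3) - 2) = 0 := by
      rw [mul_assoc, mul_assoc, ← mul_assoc (b3 + c3), hcub3, mul_zero]
    rw [h3]
    rfl
  · intro h
    rw [hQ, hP]
    exact (condII_res (condII_3 (condII_2 h))).reindex e
  · intro h
    rw [hQ, hP] at h
    exact condI_2 σ (condI_3 σ (condI_res σ (algebraMap ℚ ℂ) (CondI.of_reindex e h)))

/-- The reduction theorem. -/
theorem reduction :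
    (∀ (K : Type) [Field K] [NumberField K] (σ : K →+* ℂ) (r : ℕ)
      (b c : Matrix (Fin r) (Fin r) K), CondII b c → CondI σ b c) ↔
    (∀ (m : ℕ) (P Q : Matrix (Fin m) (Fin m) ℚ), P * P = P → Q * (Q - 1) * (Q - 2) = 0 →
      CondII ((1 / 3 : ℚ) • Q - (1 / 2 : ℚ) • P) ((1 / 2 : ℚ) • P) →
        CondI (algebraMap ℚ ℂ) ((1 / 3 : ℚ) • Q - (1 / 2 : ℚ) • P) ((1 / 2 : ℚ) • P)) := by
  constructor
  · intro h m P Q _ _ hII
    exact h ℚ (algebraMap ℚ ℂ) m _ _ hII
  · intro h K _ _ σ r b c hII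
    obtain ⟨P, Q, h1, h2, h3, h4⟩ := pointwise K σ r b c
    exact h4 (h _ P Q h1 h2 (h3 hII))

end Pool.Agent.Y227.MR
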