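import Pool.Agent.Y227.MR.Blocks

set_option autoImplicit false

open Matrix Polynomial

namespace Pool.Agent.Y227.MR

variable {k E : Type*} [Field k] [Field E] [Algebra k E] {κ : Type*} [Fintype κ] [DecidableEq κ]

lemma zder_natCast (δ : ZDer E) (n : ℕ) : δ (n : E) = 0 := Derivation.map_natCast δ n

lemma zder_mul_const (δ : ZDer E) {a : E} (ha : δ a = 0) (f : E) : δ (a * f) = a * δ f := by
  rw [Derivation.leibniz, ha, smul_eq_mul, smul_zero, add_zero]

lemma inter2 (h2 : (2 : k) ≠ 0) (δ : ZDer E) (hδ : ∀ a : k, δ (algebraMap k E a) = 0) (w : E)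
    (hw : w ≠ 0) (hw1 : 1 - w ≠ 0) (hw2 : 1 + w ≠ 0) (b c : Matrix κ κ k) :
    (wmat 2 κ w).map δ + wmat 2 κ w * (δ ((1 - w) / 2) • coeff ((1 - w) / 2) b c) =
      (δ (1 - w ^ 2) • coeff (1 - w ^ 2) (Matrix.comp _ _ _ _ _ (B2 b c))
        (Matrix.comp _ _ _ _ _ (C2 b c))) * wmat 2 κ w := by
  have h2E : (2 : E) ≠ 0 := by
    have := (map_ne_zero (algebraMap k E)).mpr h2
    rwa [map_ofNat] at this
  have e1 : δ ((1 - w) / 2) = -(δ w) / 2 := by
    have h1 : δ ((2 : E)⁻¹) = 0 := by
      rw [Derivation.leibniz_inv]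
      have : δ (2 : E) = 0 := by exact_mod_cast zder_natCast δ 2
      rw [this, smul_zero]
    rw [div_eq_inv_mul, zder_mul_const δ h1, map_sub, zder_one]
    ring
  have e2 : δ (1 - w ^ 2) = -2 * w * δ w := by
    rw [map_sub, zder_one, Derivation.leibniz_pow]
    simp
    ring
  have ht : (1 : E) - w ^ 2 ≠ 0 := by
    rw [show (1 : E) - w ^ 2 = (1 - w) * (1 + w) by ring]
    exact mul_ne_zero hw1 hw2
  have ht1 : (1 : E) - w ^ 2 - 1 = - w ^ 2 := by ring
  have hx1 : (1 - w) / 2 - 1 = -(1 + w) / 2 := by field_simp; ring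
  have ht' : (1 : E) - w ^ 2 = (1 - w) * (1 + w) := by ring
  apply intertwine_of
  intro i l l'
  rw [e1, e2, ht1, hx1, ht']
  generalize hβ : algebraMap k E (b l l') = β
  generalize hγ : algebraMap k E (c l l') = γ
  fin_cases i
  · simp only [Fin.sum_univ_two, B2, C2, Matrix.of_apply, Matrix.cons_val', Matrix.cons_val_zero,
      Matrix.cons_val_one, Matrix.cons_val_fin_one, Fin.zero_eta, Matrix.smul_apply,
      Matrix.add_apply, Matrix.sub_apply, Matrix.neg_apply, Matrix.zero_apply, smul_eq_mul,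
      map_mul, map_add, map_sub, map_neg, map_zero, map_div₀, map_one, map_ofNat, hβ, hγ,
      Fin.val_zero, Fin.val_one, pow_zero, pow_one, zder_one]
    clear hβ hγ e1 e2 ht' hx1 ht1
    generalize δ w = dw
    field_simp
    ring
  · simp only [Fin.sum_univ_two, B2, C2, Matrix.of_apply, Matrix.cons_val', Matrix.cons_val_zero,
      Matrix.cons_val_one, Matrix.cons_val_fin_one, Fin.mk_one, Matrix.smul_apply,
      Matrix.add_apply, Matrix.sub_apply, Matrix.neg_apply, Matrix.zero_apply, smul_eq_mul,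
      map_mul, map_add, map_sub, map_neg, map_zero, map_div₀, map_one, map_ofNat, hβ, hγ,
      Fin.val_zero, Fin.val_one, pow_zero, pow_one, Matrix.one_apply, apply_ite (algebraMap k E)]
    clear hβ hγ e1 e2 ht' hx1 ht1
    generalize δ w = dw
    generalize (if l = l' then (1 : E) else 0) = ε
    field_simp
    ring

lemma inter3 (h2 : (2 : k) ≠ 0) (h3 : (3 : k) ≠ 0) (δ : ZDer E)
    (hδ : ∀ a : k, δ (algebraMap k E a) = 0) (w : E)
    (hw : w ≠ 0) (hw1 : 1 + w ≠ 0) (hw2 : 3 * w - 1 ≠ 0) (hw3 : 3 * w + 2 ≠ 0)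
    (b c : Matrix κ κ k) :
    (wmat 3 κ w).map δ + wmat 3 κ w * (δ ((1 + w) / (4 * w)) • coeff ((1 + w) / (4 * w)) b c) =
      (δ (27 / 4 * (w ^ 2 * (1 + w))) • coeff (27 / 4 * (w ^ 2 * (1 + w)))
        (Matrix.comp _ _ _ _ _ (B3 b c)) (Matrix.comp _ _ _ _ _ (C3 b c))) * wmat 3 κ w := by
  have h2E : (2 : E) ≠ 0 := by
    have := (map_ne_zero (algebraMap k E)).mpr h2
    rwa [map_ofNat] at this
  have h3E : (3 : E) ≠ 0 := by
    have := (map_ne_zero (algebraMap k E)).mpr h3
    rwa [map_ofNat] at this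
  have h4E : (4 : E) ≠ 0 := by
    rw [show (4 : E) = 2 * 2 by norm_num]; exact mul_ne_zero h2E h2E
  have h6E : (6 : E) ≠ 0 := by
    rw [show (6 : E) = 2 * 3 by norm_num]; exact mul_ne_zero h2E h3E
  have h9E : (9 : E) ≠ 0 := by
    rw [show (9 : E) = 3 * 3 by norm_num]; exact mul_ne_zero h3E h3E
  have h27E : (27 : E) ≠ 0 := by
    rw [show (27 : E) = 3 * 9 by norm_num]; exact mul_ne_zero h3E h9E
  have hn : ∀ n : ℕ, δ (n : E) = 0 := zder_natCast δ
  have e1 : δ ((1 + w) / (4 * w)) = -(δ w) / (4 * w ^ 2) := by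
    have h4 : δ ((4 : E)⁻¹) = 0 := by
      rw [Derivation.leibniz_inv]
      have : δ (4 : E) = 0 := by exact_mod_cast zder_natCast δ 4
      rw [this, smul_zero]
    have h5 : (1 + w) / (4 * w) = (4 : E)⁻¹ * (w⁻¹ + 1) := by field_simp
    rw [h5, zder_mul_const δ h4, map_add, zder_one, Derivation.leibniz_inv, smul_eq_mul]
    field_simp
    ring
  have e2 : δ (27 / 4 * (w ^ 2 * (1 + w))) = 27 / 4 * (w * (2 + 3 * w)) * δ w := by
    have h4 : δ (27 / 4 : E) = 0 := by
      have h5 : (27 / 4 : E) = algebraMap k E (27 / 4) := by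
        rw [map_div₀, map_ofNat, map_ofNat]
      rw [h5, hδ]
    rw [zder_mul_const δ h4, Derivation.leibniz, Derivation.leibniz_pow, map_add, zder_one]
    simp
    ring
  have hx1 : (1 + w) / (4 * w) - 1 = -(3 * w - 1) / (4 * w) := by field_simp; ring
  have ht1 : (27 / 4 * (w ^ 2 * (1 + w)) : E) - 1 = (3 * w - 1) * (3 * w + 2) ^ 2 / 4 := by
    field_simp; ring
  have e3 : δ (w ^ 2) = 2 * w * δ w := by
    rw [Derivation.leibniz_pow]
    simp
    ring
  apply intertwine_of
  intro i l l'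
  rw [e1, e2, ht1, hx1]
  generalize hβ : algebraMap k E (b l l') = β
  generalize hγ : algebraMap k E (c l l') = γ
  fin_cases i
  · simp only [Fin.sum_univ_three, B3, C3, Matrix.of_apply, Matrix.cons_val', Matrix.cons_val_zero,
      Matrix.cons_val_one, Matrix.cons_val_fin_one, Matrix.cons_val, Fin.zero_eta,
      Matrix.smul_apply, Matrix.add_apply, Matrix.sub_apply, Matrix.neg_apply, Matrix.zero_apply,
      smul_eq_mul, map_mul, map_add, map_sub, map_neg, map_zero, map_div₀, map_one, map_ofNat,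
      hβ, hγ, Fin.val_zero, Fin.val_one, Fin.val_two, pow_zero, pow_one, Matrix.one_apply,
      apply_ite (algebraMap k E), zder_one]
    clear hβ hγ e1 e2 hx1 ht1 e3
    generalize δ w = dw
    generalize hm : 3 * w - 1 = m at hw2 ⊢
    generalize hq : 3 * w + 2 = q at hw3 ⊢
    field_simp
    subst hm hq
    ring
  · simp only [Fin.sum_univ_three, B3, C3, Matrix.of_apply, Matrix.cons_val', Matrix.cons_val_zero,
      Matrix.cons_val_one, Matrix.cons_val_fin_one, Matrix.cons_val, Fin.mk_one,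
      Matrix.smul_apply, Matrix.add_apply, Matrix.sub_apply, Matrix.neg_apply, Matrix.zero_apply,
      smul_eq_mul, map_mul, map_add, map_sub, map_neg, map_zero, map_div₀, map_one, map_ofNat,
      hβ, hγ, Fin.val_zero, Fin.val_one, Fin.val_two, pow_zero, pow_one, Matrix.one_apply,
      apply_ite (algebraMap k E)]
    clear hβ hγ e1 e2 hx1 ht1 e3
    generalize δ w = dw
    generalize (if l = l' then (1 : E) else 0) = ε
    generalize hm : 3 * w - 1 = m at hw2 ⊢
    generalize hq : 3 * w + 2 = q at hw3 ⊢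
    field_simp
    subst hm hq
    ring
  · simp only [Fin.sum_univ_three, B3, C3, Matrix.of_apply, Matrix.cons_val', Matrix.cons_val_zero,
      Matrix.cons_val_one, Matrix.cons_val_fin_one, Matrix.cons_val, Fin.reduceFinMk,
      Matrix.smul_apply, Matrix.add_apply, Matrix.sub_apply, Matrix.neg_apply, Matrix.zero_apply,
      smul_eq_mul, map_mul, map_add, map_sub, map_neg, map_zero, map_div₀, map_one, map_ofNat,
      hβ, hγ, Fin.val_zero, Fin.val_one, Fin.val_two, pow_zero, pow_one, Matrix.one_apply,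
      apply_ite (algebraMap k E), e3]
    clear hβ hγ e1 e2 hx1 ht1 e3
    generalize δ w = dw
    generalize (if l = l' then (1 : E) else 0) = ε
    generalize hm : 3 * w - 1 = m at hw2 ⊢
    generalize hq : 3 * w + 2 = q at hw3 ⊢
    field_simp
    subst hm hq
    ring

end Pool.Agent.Y227.MR
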