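import Mathlib

set_option autoImplicit false

open Matrix

namespace Pool.Agent.Y227.MR

/-- Derivations of a field. -/
abbrev ZDer (F : Type*) [Field F] := Derivation ℤ F F

section ops

variable {F : Type*} [Field F] {ι : Type*} [Fintype ι]

/-- The operator `v ↦ v' - M v`. -/
def nab (D : ZDer F) (M : Matrix ι ι F) : (ι → F) →+ (ι → F) where
  toFun v := fun i => D (v i) - (M *ᵥ v) i
  map_zero' := by ext i; simp
  map_add' v w := by
    ext i
    simp only [Pi.add_apply, map_add, Matrix.mulVec_add]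
    ring

lemma nab_apply (D : ZDer F) (M : Matrix ι ι F) (v : ι → F) (i : ι) :
    nab D M v i = D (v i) - (M *ᵥ v) i := rfl

lemma nab_smul (D : ZDer F) (M : Matrix ι ι F) (f : F) (v : ι → F) :
    nab D M (f • v) = D f • v + f • nab D M v := by
  ext i
  simp only [nab_apply, Pi.smul_apply, Pi.add_apply, smul_eq_mul, Derivation.leibniz,
    Matrix.mulVec_smul]
  ring

/-- There is an invertible matrix of solutions. -/
def Full [DecidableEq ι] (D : ZDer F) (M : Matrix ι ι F) : Prop :=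
  ∃ Y : Matrix ι ι F, Y.det ≠ 0 ∧ Y.map D = M * Y

variable [DecidableEq ι] {D : ZDer F} {M : Matrix ι ι F}

lemma full_of_span (h : Submodule.span F {v : ι → F | nab D M v = 0} = ⊤) : Full D M := by
  obtain ⟨b, hb, hspan, hli⟩ := exists_linearIndependent F {v : ι → F | nab D M v = 0}
  rw [h] at hspan
  have hspan' : ⊤ ≤ Submodule.span F (Set.range ((↑) : b → ι → F)) := by
    rw [Subtype.range_coe, hspan]
  let B : Module.Basis b F (ι → F) := Module.Basis.mk hli hspan'
  let e : b ≃ ι := B.indexEquiv (Pi.basisFun F ι)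
  let B' : Module.Basis ι F (ι → F) := B.reindex e
  have hB' : ∀ j, B' j = ((e.symm j : b) : ι → F) := by
    intro j
    simp [B', B]
  refine ⟨Matrix.of fun i j => B' j i, ?_, ?_⟩
  · have h1 : (Matrix.of fun i j => B' j i) = (Pi.basisFun F ι).toMatrix B' := by
      ext i j
      simp [Module.Basis.toMatrix_apply]
    rw [h1]
    have hinv : Invertible ((Pi.basisFun F ι).toMatrix B') := (Pi.basisFun F ι).invertibleToMatrix B'
    have h2 : IsUnit ((Pi.basisFun F ι).toMatrix B').det :=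
      (Matrix.isUnit_iff_isUnit_det _).mp (isUnit_of_invertible _)
    exact h2.ne_zero
  · ext i j
    have h1 : nab D M (B' j) = 0 := by
      rw [hB' j]
      exact hb (e.symm j).2
    have h2 := congrFun h1 i
    rw [nab_apply, Pi.zero_apply, sub_eq_zero] at h2
    rw [Matrix.map_apply, Matrix.of_apply, h2, Matrix.mul_apply]
    rfl

omit [DecidableEq ι] in
lemma nab_mulVec {Y : Matrix ι ι F} (hY : Y.map D = M * Y) (z : ι → F) :
    nab D M (Y *ᵥ z) = Y *ᵥ (fun j => D (z j)) := by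
  ext i
  rw [nab_apply, Matrix.mulVec_mulVec, ← hY]
  simp only [Matrix.mulVec, dotProduct, map_sum, Derivation.leibniz, smul_eq_mul,
    Matrix.map_apply]
  rw [← Finset.sum_sub_distrib]
  refine Finset.sum_congr rfl fun j _ => ?_
  ring

omit [DecidableEq ι] in
lemma iterate_nab_mulVec {Y : Matrix ι ι F} (hY : Y.map D = M * Y) (n : ℕ) (z : ι → F) :
    (nab D M)^[n] (Y *ᵥ z) = Y *ᵥ (fun j => D^[n] (z j)) := by
  induction n with
  | zero => rfl
  | succ n ih =>
    rw [Function.iterate_succ_apply', ih, nab_mulVec hY]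
    simp only [Function.iterate_succ_apply']

lemma iterate_of_full {n : ℕ} (hD : ∀ f : F, D^[n] f = 0) (h : Full D M) (v : ι → F) :
    (nab D M)^[n] v = 0 := by
  obtain ⟨Y, hdet, hY⟩ := h
  have h1 : v = Y *ᵥ (Y⁻¹ *ᵥ v) := by
    rw [Matrix.mulVec_mulVec, Matrix.mul_nonsing_inv _ (isUnit_iff_ne_zero.mpr hdet),
      Matrix.one_mulVec]
  rw [h1, iterate_nab_mulVec hY]
  simp only [hD]
  exact Matrix.mulVec_zero _

lemma map_inv {Y : Matrix ι ι F} (hdet : Y.det ≠ 0) (hY : Y.map D = M * Y) :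
    Y⁻¹.map D = -(Y⁻¹ * M) := by
  have hu : IsUnit Y.det := isUnit_iff_ne_zero.mpr hdet
  have h1 : (Y⁻¹ * Y).map D = 0 := by
    rw [Matrix.nonsing_inv_mul _ hu]
    ext i j
    simp only [Matrix.map_apply, Matrix.zero_apply, Matrix.one_apply]
    split_ifs <;> simp
  have h2 : (Y⁻¹ * Y).map D = Y⁻¹.map D * Y + Y⁻¹ * Y.map D := by
    ext i j
    simp only [Matrix.map_apply, Matrix.mul_apply, map_sum, Derivation.leibniz, smul_eq_mul,
      Matrix.add_apply]
    rw [← Finset.sum_add_distrib]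
    refine Finset.sum_congr rfl fun l _ => ?_
    ring
  rw [h2, hY] at h1
  have h3 : Y⁻¹.map D * Y = -(Y⁻¹ * (M * Y)) := eq_neg_of_add_eq_zero_left h1
  calc Y⁻¹.map D = Y⁻¹.map D * Y * Y⁻¹ := by
        rw [Matrix.mul_assoc, Matrix.mul_nonsing_inv _ hu, Matrix.mul_one]
    _ = -(Y⁻¹ * M) := by
        rw [h3, Matrix.neg_mul, ← Matrix.mul_assoc, Matrix.mul_assoc (Y⁻¹ * M),
          Matrix.mul_nonsing_inv _ hu, Matrix.mul_one]

lemma Full.dual (h : Full D M) : Full D (-Mᵀ) := by
  obtain ⟨Y, hdet, hY⟩ := h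
  refine ⟨(Y⁻¹)ᵀ, ?_, ?_⟩
  · rw [Matrix.det_transpose]
    exact (Matrix.isUnit_nonsing_inv_det Y (isUnit_iff_ne_zero.mpr hdet)).ne_zero
  · have h1 := map_inv hdet hY
    have h2 : (Y⁻¹)ᵀ.map D = (Y⁻¹.map D)ᵀ := rfl
    rw [h2, h1, Matrix.transpose_neg, Matrix.transpose_mul, Matrix.neg_mul]

lemma Full.of_dual (h : Full D (-Mᵀ)) : Full D M := by
  have h1 := h.dual
  rwa [Matrix.transpose_neg, neg_neg, Matrix.transpose_transpose] at h1

end ops

section cartier

variable {F : Type*} [Field F] {ι : Type*} [Fintype ι] [DecidableEq ι]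
  {D : ZDer F} {M : Matrix ι ι F} {p : ℕ} [Fact p.Prime] [CharP F p]

/-- The coefficient `(-t) ^ i / i!`. -/
noncomputable def cf (t : F) (i : ℕ) : F := ((i.factorial : F)⁻¹) * (-t) ^ i

omit [Fact p.Prime] in
lemma D_cf_succ {t : F} (ht : D t = 1) (hp : p.Prime) {i : ℕ} (hi : i + 1 < p) :
    D (cf t (i + 1)) = -cf t i := by
  have h1 : ((i + 1 : ℕ) : F) ≠ 0 := by
    rw [Ne, CharP.cast_eq_zero_iff F p]
    exact Nat.not_dvd_of_pos_of_lt (Nat.succ_pos i) hi
  have h0 : ((i.factorial : ℕ) : F) ≠ 0 := by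
    rw [Ne, CharP.cast_eq_zero_iff F p, hp.dvd_factorial]
    omega
  have h3 : D ((((i + 1).factorial : ℕ) : F)⁻¹) = 0 := by
    rw [Derivation.leibniz_inv]
    simp
  unfold cf
  rw [Derivation.leibniz, h3, Derivation.leibniz_pow, map_neg, ht]
  simp only [smul_eq_mul, nsmul_eq_mul, Nat.add_sub_cancel, mul_zero, add_zero]
  rw [Nat.factorial_succ]
  push_cast at h1 ⊢
  rw [mul_inv]
  field_simp

theorem full_of_iterate {t : F} (ht : D t = 1) (h : ∀ v, (nab D M)^[p] v = 0) : Full D M := by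
  have hp : p.Prime := Fact.out
  apply full_of_span
  -- the projector
  let P : (ι → F) → (ι → F) := fun v => ∑ i ∈ Finset.range p, cf t i • (nab D M)^[i] v
  have hP : ∀ v, nab D M (P v) = 0 := by
    intro v
    obtain ⟨m, hm⟩ : ∃ m, p = m + 1 := ⟨p - 1, by have := hp.pos; omega⟩
    simp only [P, map_sum, nab_smul, Finset.sum_add_distrib]
    simp only [← Function.iterate_succ_apply' (⇑(nab D M))]
    rw [hm, Finset.sum_range_succ', Finset.sum_range_succ (fun i => cf t i • _)]
    have h0 : D (cf t 0) = 0 := by simp [cf]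
    have h1 : (nab D M)^[m.succ] v = 0 := by
      rw [Nat.succ_eq_add_one, ← hm]; exact h v
    rw [h0, zero_smul, add_zero, h1, smul_zero, add_zero, ← Finset.sum_add_distrib]
    refine Finset.sum_eq_zero fun i hi => ?_
    have hi' := Finset.mem_range.mp hi
    rw [D_cf_succ ht hp (by omega), neg_smul]
    exact neg_add_cancel _
  have key : ∀ m ≤ p, ∀ v : ι → F, (nab D M)^[m] v = 0 →
      v ∈ Submodule.span F {v : ι → F | nab D M v = 0} := by
    intro m
    induction m with
    | zero =>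
      intro _ v hv
      have : v = 0 := hv
      rw [this]; exact Submodule.zero_mem _
    | succ m ih =>
      intro hm v hv
      have h1 : P v = v + ∑ i ∈ Finset.range (p - 1), cf t (i + 1) • (nab D M)^[i + 1] v := by
        simp only [P]
        obtain ⟨q, hq⟩ : ∃ q, p = q + 1 := ⟨p - 1, by have := hp.pos; omega⟩
        rw [hq, Finset.sum_range_succ', Nat.add_sub_cancel, add_comm]
        congr 1
        simp [cf]
      have h2 : v = P v - ∑ i ∈ Finset.range (p - 1), cf t (i + 1) • (nab D M)^[i + 1] v := by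
        rw [h1]; abel
      rw [h2]
      refine Submodule.sub_mem _ (Submodule.subset_span (hP v)) ?_
      refine Submodule.sum_mem _ fun i _ => Submodule.smul_mem _ _ (ih (by omega) _ ?_)
      rw [← Function.iterate_add_apply, show m + (i + 1) = i + (m + 1) by ring,
        Function.iterate_add_apply, hv]
      exact Function.iterate_fixed (map_zero _) _
  rw [eq_top_iff]
  intro v _
  exact key p le_rfl v (h v)

end cartier

section transfer

variable {F : Type*} [Field F] {ι κ : Type*} [Fintype ι] [Fintype κ]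
  {D : ZDer F}

lemma nab_transfer {L : Type*} [Field L] {δ : ZDer L} {j : F →+* L}
    (hj : ∀ f, δ (j f) = j (D f)) {A : Matrix κ κ L} {M : Matrix ι ι F} {W : Matrix ι κ L}
    (hW : W.map δ + W * A = M.map j * W) (ξ : ι → F) :
    nab δ (-Aᵀ) ((fun i => j (ξ i)) ᵥ* W) = (fun i => j (nab D (-Mᵀ) ξ i)) ᵥ* W := by
  ext l
  have h1 : ∀ i, δ (W i l) = (∑ i', j (M i i') * W i' l) - ∑ l', W i l' * A l' l := by
    intro i
    have h2 := congrFun (congrFun hW i) l
    simp only [Matrix.add_apply, Matrix.map_apply, Matrix.mul_apply] at h2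
    rw [← h2]; ring
  simp only [nab_apply, Matrix.neg_mulVec, Matrix.mulVec_transpose, Pi.neg_apply,
    sub_neg_eq_add, Matrix.vecMul, dotProduct, map_sum, map_add, Derivation.leibniz, smul_eq_mul,
    hj, h1, map_mul, add_mul, Finset.sum_add_distrib, Finset.sum_mul, mul_sub, Finset.mul_sum,
    Finset.sum_sub_distrib]
  have e1 : ∑ i, W i l * j (D (ξ i)) = ∑ i, j (D (ξ i)) * W i l :=
    Finset.sum_congr rfl fun i _ => mul_comm _ _
  have e2 : ∑ x, ∑ i, j (ξ x) * (j (M x i) * W i l) = ∑ x, ∑ i, j (ξ i) * j (M i x) * W x l := by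
    rw [Finset.sum_comm]
    refine Finset.sum_congr rfl fun i _ => Finset.sum_congr rfl fun x _ => by ring
  have e3 : ∑ x, ∑ i, j (ξ x) * (W x i * A i l) = ∑ x, ∑ i, j (ξ i) * W i x * A x l := by
    rw [Finset.sum_comm]
    refine Finset.sum_congr rfl fun i _ => Finset.sum_congr rfl fun x _ => by ring
  rw [e1, e2, e3]
  ring

lemma iterate_transfer {S : Type*} {L : S → Type*} [∀ s, Field (L s)]
    {δ : ∀ s, ZDer (L s)} {j : ∀ s, F →+* L s}
    (hj : ∀ s f, δ s (j s f) = j s (D f)) {A : ∀ s, Matrix κ κ (L s)} {M : Matrix ι ι F}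
    {W : ∀ s, Matrix ι κ (L s)}
    (hW : ∀ s, (W s).map (δ s) + W s * A s = M.map (j s) * W s)
    (hinj : ∀ ξ : ι → F, (∀ s, (fun i => j s (ξ i)) ᵥ* W s = 0) → ξ = 0) {n : ℕ}
    (h : ∀ s v, (nab (δ s) (-(A s)ᵀ))^[n] v = 0) (ξ : ι → F) :
    (nab D (-Mᵀ))^[n] ξ = 0 := by
  apply hinj
  intro s
  have h1 : ∀ m : ℕ, (nab (δ s) (-(A s)ᵀ))^[m] ((fun i => j s (ξ i)) ᵥ* W s) =
      (fun i => j s ((nab D (-Mᵀ))^[m] ξ i)) ᵥ* W s := by
    intro m
    induction m with
    | zero => rfl
    | succ m ih =>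
      rw [Function.iterate_succ_apply', ih, nab_transfer (hj s) (hW s)]
      simp only [Function.iterate_succ_apply']
  rw [← h1 n]
  exact h s _

variable [DecidableEq ι] [DecidableEq κ]

/-- Transfer of vanishing `p`-curvature. -/
theorem iterate_zero_of_transfer {p : ℕ} [Fact p.Prime] [CharP F p] {t : F} (ht : D t = 1)
    (hD : ∀ f : F, D^[p] f = 0)
    {S : Type*} {L : S → Type*} [∀ s, Field (L s)]
    {δ : ∀ s, ZDer (L s)} (hδ : ∀ s f, (δ s)^[p] f = 0)
    {j : ∀ s, F →+* L s}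
    (hj : ∀ s f, δ s (j s f) = j s (D f)) {A : ∀ s, Matrix κ κ (L s)} {M : Matrix ι ι F}
    {W : ∀ s, Matrix ι κ (L s)}
    (hW : ∀ s, (W s).map (δ s) + W s * A s = M.map (j s) * W s)
    (hinj : ∀ ξ : ι → F, (∀ s, (fun i => j s (ξ i)) ᵥ* W s = 0) → ξ = 0)
    (h : ∀ s, Full (δ s) (A s)) (v : ι → F) :
    (nab D M)^[p] v = 0 := by
  have h1 : ∀ ξ, (nab D (-Mᵀ))^[p] ξ = 0 := fun ξ =>
    iterate_transfer hj hW hinj (fun s v => iterate_of_full (hδ s) (h s).dual v) ξ
  exact iterate_of_full hD (full_of_iterate ht h1).of_dual v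

/-- Transfer of solutions in the other direction. -/
theorem full_of_transfer {A : Matrix κ κ F} {M : Matrix ι ι F} {W : Matrix ι κ F}
    (hW : W.map D + W * A = M * W) (hinj : ∀ v : κ → F, W *ᵥ v = 0 → v = 0)
    (hU : Full D M) : Full D A := by
  obtain ⟨U, hdet, hU⟩ := hU
  have hu : IsUnit U.det := isUnit_iff_ne_zero.mpr hdet
  have h1 := map_inv hdet hU
  set Z : Matrix ι κ F := U⁻¹ * W with hZ
  have hZinj : Function.Injective Z.mulVecLin := by
    rw [← LinearMap.ker_eq_bot, LinearMap.ker_eq_bot']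
    intro v hv
    apply hinj
    have h2 : U *ᵥ (Z *ᵥ v) = 0 := by
      rw [Matrix.mulVecLin_apply] at hv
      rw [hv, Matrix.mulVec_zero]
    rw [Matrix.mulVec_mulVec, hZ, ← Matrix.mul_assoc, Matrix.mul_nonsing_inv _ hu,
      Matrix.one_mul] at h2
    exact h2
  have hDZ : Z.map D = -(Z * A) := by
    have h2 : Z.map D = U⁻¹.map D * W + U⁻¹ * W.map D := by
      ext i l
      simp only [hZ, Matrix.map_apply, Matrix.mul_apply, map_sum, Derivation.leibniz, smul_eq_mul,
        Matrix.add_apply]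
      rw [← Finset.sum_add_distrib]
      refine Finset.sum_congr rfl fun x _ => ?_
      ring
    have h3 : W.map D = M * W - W * A := by rw [← hW]; abel
    rw [h2, h1, h3, Matrix.mul_sub, Matrix.neg_mul, Matrix.mul_assoc, hZ, Matrix.mul_assoc]
    abel
  apply Full.of_dual
  apply full_of_span
  have hrows : Submodule.span F (Set.range Z) = ⊤ := by
    have h2 : Z.rank = Fintype.card κ := by
      rw [Matrix.rank, LinearMap.finrank_range_of_inj hZinj, Module.finrank_fintype_fun_eq_card]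
    apply Submodule.eq_top_of_finrank_eq
    rw [Module.finrank_fintype_fun_eq_card, ← h2, Matrix.rank_eq_finrank_span_row]
    rfl
  rw [eq_top_iff, ← hrows]
  apply Submodule.span_mono
  rintro _ ⟨i, rfl⟩
  change nab D (-Aᵀ) (Z i) = 0
  ext l
  have h2 := congrFun (congrFun hDZ i) l
  rw [Matrix.map_apply, Matrix.neg_apply, Matrix.mul_apply] at h2
  rw [nab_apply, h2, Matrix.neg_mulVec, Matrix.mulVec_transpose, Pi.neg_apply, sub_neg_eq_add,
    Pi.zero_apply, Matrix.vecMul, dotProduct]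
  exact neg_add_cancel _

end transfer

end Pool.Agent.Y227.MR
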