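import Pool.Agent.Y227.MR.Ops
import Pool.Agent.W432.PC.Ddx

set_option autoImplicit false

open Matrix Polynomial Pool.Agent.W432.PC

namespace Pool.Agent.Y227.MR

section leibniz

variable {F : Type*} [Field F]

lemma zder_one (D : ZDer F) : D 1 = 0 := D.map_one_eq_zero

lemma iterate_leibniz (D : ZDer F) (n : ℕ) (p q : F) :
    D^[n] (p * q) =
      ∑ k ∈ Finset.range n.succ, (n.choose k • (D^[n - k] p * D^[k] q)) := by
  induction n with
  | zero =>
    simp [Finset.range]
  | succ n IH =>
    calc
      D^[n + 1] (p * q) =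
          D (∑ k ∈ Finset.range n.succ,
              n.choose k • (D^[n - k] p * D^[k] q)) := by
        rw [Function.iterate_succ_apply', IH]
      _ = (∑ k ∈ Finset.range n.succ,
            n.choose k • (D^[n - k + 1] p * D^[k] q)) +
          ∑ k ∈ Finset.range n.succ,
            n.choose k • (D^[n - k] p * D^[k + 1] q) := by
        rw [map_sum, ← Finset.sum_add_distrib]
        refine Finset.sum_congr rfl fun k _ => ?_
        rw [map_nsmul, Derivation.leibniz, Function.iterate_succ_apply',
          Function.iterate_succ_apply', smul_eq_mul, smul_eq_mul, ← smul_add]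
        congr 1
        ring
      _ = (∑ k ∈ Finset.range n.succ,
                n.choose k.succ • (D^[n - k] p * D^[k + 1] q)) +
              1 • (D^[n + 1] p * D^[0] q) +
            ∑ k ∈ Finset.range n.succ, n.choose k • (D^[n - k] p * D^[k + 1] q) :=
        ?_
      _ = ((∑ k ∈ Finset.range n.succ, n.choose k • (D^[n - k] p * D^[k + 1] q)) +
              ∑ k ∈ Finset.range n.succ,
                n.choose k.succ • (D^[n - k] p * D^[k + 1] q)) +
            1 • (D^[n + 1] p * D^[0] q) := by
        rw [add_comm, add_assoc]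
      _ = (∑ i ∈ Finset.range n.succ,
              (n + 1).choose (i + 1) • (D^[n + 1 - (i + 1)] p * D^[i + 1] q)) +
            1 • (D^[n + 1] p * D^[0] q) := by
        simp_rw [Nat.choose_succ_succ, Nat.succ_sub_succ, add_smul, Finset.sum_add_distrib]
      _ = ∑ k ∈ Finset.range n.succ.succ,
            n.succ.choose k • (D^[n.succ - k] p * D^[k] q) := by
        rw [Finset.sum_range_succ' _ n.succ, Nat.choose_zero_right, tsub_zero]
    congr
    refine (Finset.sum_range_succ' _ _).trans (congr_arg₂ (· + ·) ?_ ?_)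
    · rw [Finset.sum_range_succ, Nat.choose_succ_self, zero_smul, add_zero]
      refine Finset.sum_congr rfl fun k hk => ?_
      rw [Finset.mem_range] at hk
      congr
      omega
    · rw [Nat.choose_zero_right, tsub_zero]

lemma iterate_map_add (D : ZDer F) (n : ℕ) (f g : F) :
    D^[n] (f + g) = D^[n] f + D^[n] g := by
  induction n with
  | zero => rfl
  | succ n ih => rw [Function.iterate_succ_apply', Function.iterate_succ_apply',
      Function.iterate_succ_apply', ih, map_add]

/-- The `p`-th power of a derivation in characteristic `p`. -/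
def powD (p : ℕ) [hp : Fact p.Prime] [CharP F p] (D : ZDer F) : ZDer F :=
  Derivation.mk' (AddMonoidHom.toIntLinearMap
    { toFun := fun f => D^[p] f
      map_zero' := Function.iterate_fixed (map_zero _) _
      map_add' := iterate_map_add D p }) (by
    intro a b
    change D^[p] (a * b) = a • D^[p] b + b • D^[p] a
    have h1 : ∑ k ∈ Finset.range p, p.choose k • (D^[p - k] a * D^[k] b) = D^[p] a * b := by
      rw [Finset.sum_eq_single 0]
      · simp
      · intro k hk hk0
        have hk' := Finset.mem_range.mp hk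
        rw [← Nat.cast_smul_eq_nsmul F, (CharP.cast_eq_zero_iff F p _).mpr
          (hp.out.dvd_choose_self hk0 hk'), zero_smul]
      · intro h0
        exact absurd (Finset.mem_range.mpr hp.out.pos) h0
    rw [iterate_leibniz, Finset.sum_range_succ, h1, Nat.choose_self, one_smul, Nat.sub_self,
      Function.iterate_zero, id_eq, smul_eq_mul, smul_eq_mul]
    ring)

lemma powD_apply (p : ℕ) [Fact p.Prime] [CharP F p] (D : ZDer F) (f : F) :
    powD p D f = D^[p] f := rfl

end leibniz

section ratfunc

variable {k : Type*} [Field k] {L : Type*} [Field L]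

/-- Chain rule. -/
lemma chain_rule (μ : RatFunc k →+* L) (δ : ZDer L)
    (hδ : ∀ a : k, δ (μ (RatFunc.C a)) = 0) (f : RatFunc k) :
    δ (μ f) = δ (μ RatFunc.X) * μ (ddx k f) := by
  have h1 : ∀ q : k[X], δ (μ (algebraMap k[X] (RatFunc k) q)) =
      δ (μ RatFunc.X) * μ (ddx k (algebraMap k[X] (RatFunc k) q)) := by
    intro q
    induction q using Polynomial.induction_on with
    | C a =>
      rw [RatFunc.algebraMap_C, hδ, ← RatFunc.algebraMap_C, ddx_algebraMap, derivative_C,
        map_zero, map_zero, mul_zero]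
    | add q r hq hr =>
      rw [map_add, map_add, map_add, map_add, map_add, hq, hr, mul_add]
    | monomial n a ih =>
      rw [pow_succ, ← mul_assoc, map_mul, map_mul, Derivation.leibniz, ih, Derivation.leibniz,
        RatFunc.algebraMap_X, ddx_X]
      simp only [smul_eq_mul, map_add, map_mul, map_one]
      ring
  obtain ⟨a, b, hb, rfl⟩ := IsFractionRing.div_surjective (A := k[X]) f
  have hb0 : algebraMap k[X] (RatFunc k) b ≠ 0 :=
    IsFractionRing.to_map_ne_zero_of_mem_nonZeroDivisors hb
  set A := algebraMap k[X] (RatFunc k) a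
  set B := algebraMap k[X] (RatFunc k) b
  have hμ : μ B ≠ 0 := (map_ne_zero μ).mpr hb0
  have h2 : δ (μ (A / B)) * μ B + μ (A / B) * δ (μ B) = δ (μ A) := by
    have h3 : μ A = μ (A / B) * μ B := by rw [← map_mul, div_mul_cancel₀ _ hb0]
    rw [h3, Derivation.leibniz, smul_eq_mul, smul_eq_mul]; ring
  have h4 : ddx k (A / B) * B + (A / B) * ddx k B = ddx k A := by
    have h3 : A = A / B * B := by rw [div_mul_cancel₀ _ hb0]
    conv_rhs => rw [h3]
    rw [Derivation.leibniz, smul_eq_mul, smul_eq_mul]; ring
  rw [h1 a, h1 b] at h2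
  have h5 := congrArg μ h4
  rw [map_add, map_mul, map_mul] at h5
  have h6 : (δ (μ (A / B)) - δ (μ RatFunc.X) * μ (ddx k (A / B))) * μ B = 0 := by
    linear_combination h2 - δ (μ RatFunc.X) * h5
  rcases mul_eq_zero.mp h6 with h7 | h7
  · exact sub_eq_zero.mp h7
  · exact absurd h7 hμ

/-- Derivations of `k(x)` with a solution of `δ φ = 1` have vanishing `p`-th power. -/
lemma iterate_eq_zero {p : ℕ} [Fact p.Prime] [CharP k p] (δ : ZDer (RatFunc k))
    (hδ : ∀ a : k, δ (RatFunc.C a) = 0) {φ : RatFunc k} (hφ : δ φ = 1) (f : RatFunc k) :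
    δ^[p] f = 0 := by
  have hp : p.Prime := Fact.out
  have hcp : CharP (RatFunc k) p := charP_of_injective_algebraMap (algebraMap k (RatFunc k)).injective p
  have hE : ∀ a : k, powD p δ (RingHom.id (RatFunc k) (RatFunc.C a)) = 0 := by
    intro a
    rw [powD_apply, RingHom.id_apply]
    obtain ⟨m, hm⟩ : ∃ m, p = m + 1 := ⟨p - 1, by have := hp.pos; omega⟩
    rw [hm, Function.iterate_succ_apply, hδ]
    exact Function.iterate_fixed (map_zero _) _
  have h1 := chain_rule (RingHom.id (RatFunc k)) (powD p δ) hE
  have h2 := chain_rule (RingHom.id (RatFunc k)) δ hδ φ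
  simp only [RingHom.id_apply] at h1 h2
  have h3 : powD p δ φ = 0 := by
    rw [powD_apply]
    obtain ⟨m, hm⟩ : ∃ m, p = m + 1 + 1 := ⟨p - 2, by have := hp.two_le; omega⟩
    rw [hm, Function.iterate_succ_apply, hφ, Function.iterate_succ_apply, zder_one]
    exact Function.iterate_fixed (map_zero _) _
  rw [h1 φ] at h3
  have h4 : ddx k φ ≠ 0 := by
    intro h0
    rw [h0, mul_zero, hφ] at h2
    exact one_ne_zero h2
  have h5 : powD p δ RatFunc.X = 0 := by
    rcases mul_eq_zero.mp h3 with h | h
    · exact h
    · exact absurd h h4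
  rw [← powD_apply, h1 f, h5, zero_mul]

variable [Algebra k L]

/-- The embedding `k(X) → L`, `X ↦ x`. -/
noncomputable def emb (x : L) (hx : Transcendental k x) : RatFunc k →+* L :=
  IsFractionRing.lift (A := k[X]) (g := (aeval x : k[X] →ₐ[k] L).toRingHom)
    (transcendental_iff_injective.mp hx)

lemma emb_algebraMap {x : L} (hx : Transcendental k x) (q : k[X]) :
    emb x hx (algebraMap k[X] (RatFunc k) q) = aeval x q :=
  IsFractionRing.lift_algebraMap _ _

lemma emb_X {x : L} (hx : Transcendental k x) : emb x hx RatFunc.X = x := by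
  rw [← RatFunc.algebraMap_X, emb_algebraMap, aeval_X]

lemma emb_C {x : L} (hx : Transcendental k x) (a : k) :
    emb x hx (RatFunc.C a) = algebraMap k L a := by
  rw [← RatFunc.algebraMap_C, emb_algebraMap, aeval_C]

/-- The powers `1, w, ..., w ^ (d - 1)` are independent over `k(φ(w))`, `d = deg φ`. -/
lemma indep_of_natDegree {φ : k[X]} {d : ℕ} (hd : φ.natDegree = d) (hd0 : 0 < d)
    (hφ : Transcendental k (algebraMap k[X] (RatFunc k) φ)) (ξ : Fin d → RatFunc k)
    (h : ∑ i, emb _ hφ (ξ i) * RatFunc.X ^ (i : ℕ) = 0) : ξ = 0 := by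
  classical
  obtain ⟨⟨s, hs⟩, hs'⟩ := IsLocalization.exist_integer_multiples_of_finite (nonZeroDivisors k[X]) ξ
  choose q hq using hs'
  simp only [Algebra.smul_def] at hq
  have hs0 : algebraMap k[X] (RatFunc k) s ≠ 0 :=
    IsFractionRing.to_map_ne_zero_of_mem_nonZeroDivisors hs
  have h1 : ∑ i, (q i).comp φ * X ^ (i : ℕ) = 0 := by
    apply IsFractionRing.injective k[X] (RatFunc k)
    rw [map_sum, map_zero]
    have h2 : ∀ i, algebraMap k[X] (RatFunc k) ((q i).comp φ * X ^ (i : ℕ)) =
        emb _ hφ (algebraMap k[X] (RatFunc k) s) * (emb _ hφ (ξ i) * RatFunc.X ^ (i : ℕ)) := by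
      intro i
      rw [← mul_assoc, ← map_mul, ← hq i, emb_algebraMap, map_mul, map_pow, RatFunc.algebraMap_X]
      congr 1
      rw [Polynomial.comp, Polynomial.aeval_def, Polynomial.hom_eval₂]
      rfl
    simp only [h2]
    rw [← Finset.mul_sum, h, mul_zero]
  have hdeg : ∀ i, (q i).comp φ * X ^ (i : ℕ) ≠ 0 →
      ((q i).comp φ * X ^ (i : ℕ)).natDegree = (q i).natDegree * d + i := by
    intro i hi
    rw [natDegree_mul (left_ne_zero_of_mul hi) (right_ne_zero_of_mul hi), natDegree_comp, hd,
      natDegree_X_pow]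
  have h3 := degree_sum_eq_of_disjoint (fun i => (q i).comp φ * X ^ (i : ℕ)) Finset.univ (by
    intro i hi j hj hij
    simp only [Finset.mem_univ, true_and, Set.mem_ofPred_eq] at hi hj
    simp only [Function.onFun, Function.comp]
    rw [degree_eq_natDegree hi, degree_eq_natDegree hj, hdeg i hi, hdeg j hj]
    intro h4
    have h5 : (q i).natDegree * d + i = (q j).natDegree * d + j := by exact_mod_cast h4
    have h6 := congrArg (· % d) h5
    simp only [Nat.mul_add_mod_self_right, Nat.mod_eq_of_lt i.2, Nat.mod_eq_of_lt j.2] at h6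
    exact hij (Fin.ext h6))
  rw [h1, degree_zero] at h3
  have h4 : ∀ i, (q i).comp φ * X ^ (i : ℕ) = 0 := by
    intro i
    rw [← degree_eq_bot, eq_bot_iff, h3]
    exact Finset.le_sup (f := fun i => ((q i).comp φ * X ^ (i : ℕ)).degree) (Finset.mem_univ i)
  ext1 i
  have h5 : (q i).comp φ = 0 := by
    rcases mul_eq_zero.mp (h4 i) with h | h
    · exact h
    · exact absurd h (pow_ne_zero _ X_ne_zero)
  have h6 : q i = 0 := by
    rcases comp_eq_zero_iff.mp h5 with h | ⟨_, h⟩
    · exact h
    · exfalso
      rw [h, natDegree_C] at hd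
      omega
  have h7 := hq i
  rw [h6, map_zero] at h7
  rcases mul_eq_zero.mp h7.symm with h | h
  · exact absurd h hs0
  · exact h

end ratfunc

end Pool.Agent.Y227.MR
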