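import Pool.Agent.Y227.MR.Steps

set_option autoImplicit false

open Matrix Polynomial NumberField

namespace Pool.Agent.Y227.MR

section red

variable {K : Type*} [Field K] {𝔭 : Ideal (𝓞 K)}

lemma IsReduction.ofInt (a : 𝓞 K) (h𝔭 : (1 : 𝓞 K) ∉ 𝔭) :
    IsReduction 𝔭 (algebraMap (𝓞 K) K a) (Ideal.Quotient.mk 𝔭 a) :=
  ⟨a, 1, h𝔭, by simp, by simp⟩

variable [h𝔭 : 𝔭.IsPrime]

omit h𝔭 in
lemma one_not_mem (h : 𝔭.IsPrime) : (1 : 𝓞 K) ∉ 𝔭 := (Ideal.ne_top_iff_one 𝔭).mp h.ne_top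

lemma IsReduction.add {x y : K} {x' y' : 𝓞 K ⧸ 𝔭} (hx : IsReduction 𝔭 x x')
    (hy : IsReduction 𝔭 y y') : IsReduction 𝔭 (x + y) (x' + y') := by
  obtain ⟨a, s, h1, h2, h3⟩ := hx
  obtain ⟨b, u, h4, h5, h6⟩ := hy
  refine ⟨a * u + b * s, s * u, fun h => (h𝔭.mem_or_mem h).elim h1 h4, ?_, ?_⟩
  · rw [map_add, map_mul, map_mul, map_mul, ← h2, ← h5]; ring
  · rw [map_mul, map_add, map_mul, map_mul, ← h3, ← h6]; ring

lemma IsReduction.mul {x y : K} {x' y' : 𝓞 K ⧸ 𝔭} (hx : IsReduction 𝔭 x x')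
    (hy : IsReduction 𝔭 y y') : IsReduction 𝔭 (x * y) (x' * y') := by
  obtain ⟨a, s, h1, h2, h3⟩ := hx
  obtain ⟨b, u, h4, h5, h6⟩ := hy
  refine ⟨a * b, s * u, fun h => (h𝔭.mem_or_mem h).elim h1 h4, ?_, ?_⟩
  · rw [map_mul, map_mul, ← h2, ← h5]; ring
  · rw [map_mul, map_mul, ← h3, ← h6]; ring

omit h𝔭 in
lemma IsReduction.neg {x : K} {x' : 𝓞 K ⧸ 𝔭} (hx : IsReduction 𝔭 x x') :
    IsReduction 𝔭 (-x) (-x') := by
  obtain ⟨a, s, h1, h2, h3⟩ := hx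
  refine ⟨-a, s, h1, ?_, ?_⟩
  · rw [mul_neg, h2, map_neg]
  · rw [mul_neg, h3, map_neg]

lemma IsReduction.sub {x y : K} {x' y' : 𝓞 K ⧸ 𝔭} (hx : IsReduction 𝔭 x x')
    (hy : IsReduction 𝔭 y y') : IsReduction 𝔭 (x - y) (x' - y') := by
  rw [sub_eq_add_neg, sub_eq_add_neg]
  exact hx.add hy.neg

lemma IsReduction.natCast (n : ℕ) : IsReduction 𝔭 (n : K) (n : 𝓞 K ⧸ 𝔭) := by
  have h := IsReduction.ofInt (𝔭 := 𝔭) (n : 𝓞 K) (one_not_mem h𝔭)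
  rw [map_natCast, map_natCast] at h
  exact h

lemma IsReduction.ofNat (n : ℕ) [n.AtLeastTwo] :
    IsReduction 𝔭 (OfNat.ofNat n : K) (OfNat.ofNat n : 𝓞 K ⧸ 𝔭) := by
  have h := IsReduction.natCast (𝔭 := 𝔭) (K := K) n
  exact_mod_cast h

lemma IsReduction.one : IsReduction 𝔭 (1 : K) (1 : 𝓞 K ⧸ 𝔭) := by
  have h := IsReduction.natCast (𝔭 := 𝔭) (K := K) 1
  exact_mod_cast h

lemma IsReduction.zero : IsReduction 𝔭 (0 : K) (0 : 𝓞 K ⧸ 𝔭) := by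
  have h := IsReduction.natCast (𝔭 := 𝔭) (K := K) 0
  exact_mod_cast h

lemma IsReduction.ite (P : Prop) [Decidable P] {x y : K} {x' y' : 𝓞 K ⧸ 𝔭}
    (hx : IsReduction 𝔭 x x') (hy : IsReduction 𝔭 y y') :
    IsReduction 𝔭 (if P then x else y) (if P then x' else y') := by
  split_ifs <;> assumption

/-- Uniqueness of the reduction. -/
lemma IsReduction.unique {x : K} {x' x'' : 𝓞 K ⧸ 𝔭} (hx : IsReduction 𝔭 x x')
    (hy : IsReduction 𝔭 x x'') : x' = x'' := by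
  obtain ⟨a, s, h1, h2, h3⟩ := hx
  obtain ⟨b, u, h4, h5, h6⟩ := hy
  have hdom : IsDomain (𝓞 K ⧸ 𝔭) := Ideal.Quotient.isDomain 𝔭
  have e1 : a * u = b * s := by
    apply NumberField.RingOfIntegers.coe_injective
    change algebraMap (𝓞 K) K (a * u) = algebraMap (𝓞 K) K (b * s)
    rw [map_mul, map_mul, ← h2, ← h5]; ring
  have e2 := congrArg (Ideal.Quotient.mk 𝔭) e1
  rw [map_mul, map_mul, ← h3, ← h6] at e2
  have hs : Ideal.Quotient.mk 𝔭 s ≠ 0 := fun h => h1 (Ideal.Quotient.eq_zero_iff_mem.mp h)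
  have hu : Ideal.Quotient.mk 𝔭 u ≠ 0 := fun h => h4 (Ideal.Quotient.eq_zero_iff_mem.mp h)
  apply mul_left_cancel₀ (mul_ne_zero hs hu)
  linear_combination e2

end red

section red2

variable {K : Type*} [Field K] {𝔭 : Ideal (𝓞 K)} [h𝔭 : 𝔭.IsMaximal]

lemma IsReduction.div {x y : K} {x' y' : 𝓞 K ⧸ 𝔭} (hx : IsReduction 𝔭 x x')
    (hy : IsReduction 𝔭 y y') (hy0 : y' ≠ 0) :
    letI : Field (𝓞 K ⧸ 𝔭) := Ideal.Quotient.field 𝔭
    IsReduction 𝔭 (x / y) (x' / y') := by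
  letI : Field (𝓞 K ⧸ 𝔭) := Ideal.Quotient.field 𝔭
  obtain ⟨a, s, h1, h2, h3⟩ := hx
  obtain ⟨b, u, h4, h5, h6⟩ := hy
  have hu : Ideal.Quotient.mk 𝔭 u ≠ 0 := fun h => h4 (Ideal.Quotient.eq_zero_iff_mem.mp h)
  have hb : b ∉ 𝔭 := by
    intro h
    have h7 : Ideal.Quotient.mk 𝔭 b = 0 := Ideal.Quotient.eq_zero_iff_mem.mpr h
    rw [h7] at h6
    rcases mul_eq_zero.mp h6 with h | h
    · exact hu h
    · exact hy0 h
  have hb0 : algebraMap (𝓞 K) K b ≠ 0 := by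
    intro h
    apply hb
    have : b = 0 := by
      apply NumberField.RingOfIntegers.coe_injective
      change algebraMap (𝓞 K) K b = algebraMap (𝓞 K) K 0
      rw [h, map_zero]
    rw [this]; exact Submodule.zero_mem _
  have hy' : y ≠ 0 := by
    rintro rfl
    rw [mul_zero] at h5
    exact hb0 h5.symm
  refine ⟨a * u, s * b, fun h => (h𝔭.isPrime.mem_or_mem h).elim h1 hb, ?_, ?_⟩
  · rw [map_mul, map_mul, ← h2, ← h5]
    field_simp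
  · rw [map_mul, map_mul, ← h3, ← h6]
    field_simp

end red2

section condII

variable {K : Type*} [Field K] {κ : Type*} [Fintype κ] [DecidableEq κ]

/-- Reduction of a matrix. -/
def RedMat {ι : Type*} (𝔭 : Ideal (𝓞 K)) (b : Matrix ι ι K) (b' : Matrix ι ι (𝓞 K ⧸ 𝔭)) : Prop :=
  ∀ i j, IsReduction 𝔭 (b i j) (b' i j)

lemma natCast_ne {𝔭 : Ideal (𝓞 K)} {n : ℕ} (hn : (n : 𝓞 K) ∉ 𝔭) : (n : 𝓞 K ⧸ 𝔭) ≠ 0 := by
  intro h
  apply hn
  have h1 : Ideal.Quotient.mk 𝔭 (n : 𝓞 K) = 0 := by rw [map_natCast]; exact h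
  exact Ideal.Quotient.eq_zero_iff_mem.mp h1

lemma red2 {𝔭 : Ideal (𝓞 K)} [h𝔭 : 𝔭.IsMaximal] (h2 : ((2 : ℕ) : 𝓞 K) ∉ 𝔭) {b c : Matrix κ κ K}
    {b' c' : Matrix κ κ (𝓞 K ⧸ 𝔭)} (hb : RedMat 𝔭 b b') (hc : RedMat 𝔭 c c') :
    letI : Field (𝓞 K ⧸ 𝔭) := Ideal.Quotient.field 𝔭
    RedMat 𝔭 (Matrix.comp _ _ _ _ _ (B2 b c)) (Matrix.comp _ _ _ _ _ (B2 b' c')) ∧
    RedMat 𝔭 (Matrix.comp _ _ _ _ _ (C2 b c)) (Matrix.comp _ _ _ _ _ (C2 b' c')) := by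
  letI : Field (𝓞 K ⧸ 𝔭) := Ideal.Quotient.field 𝔭
  have h𝔭' : 𝔭.IsPrime := h𝔭.isPrime
  have h20 : (2 : 𝓞 K ⧸ 𝔭) ≠ 0 := by exact_mod_cast natCast_ne h2
  have r12 : IsReduction 𝔭 (1 / 2 : K) (1 / 2 : 𝓞 K ⧸ 𝔭) :=
    IsReduction.div IsReduction.one (IsReduction.ofNat 2) h20
  constructor
  · rintro ⟨i, l⟩ ⟨j, l'⟩
    rw [Matrix.comp_apply, Matrix.comp_apply]
    fin_cases i <;> fin_cases j
    · exact r12.mul ((hb l l').add (hc l l'))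
    · exact r12.mul ((hb l l').sub (hc l l'))
    · exact r12.mul ((hb l l').sub (hc l l'))
    · exact r12.mul ((hb l l').add (hc l l'))
  · rintro ⟨i, l⟩ ⟨j, l'⟩
    rw [Matrix.comp_apply, Matrix.comp_apply]
    fin_cases i <;> fin_cases j
    · exact IsReduction.zero
    · exact (r12.mul ((hb l l').sub (hc l l'))).neg
    · exact IsReduction.zero
    · exact r12.mul (by
        rw [Matrix.one_apply, Matrix.one_apply]
        exact IsReduction.ite _ IsReduction.one IsReduction.zero)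

lemma red3 {𝔭 : Ideal (𝓞 K)} [h𝔭 : 𝔭.IsMaximal] (h2 : ((2 : ℕ) : 𝓞 K) ∉ 𝔭)
    (h3 : ((3 : ℕ) : 𝓞 K) ∉ 𝔭) {b c : Matrix κ κ K}
    {b' c' : Matrix κ κ (𝓞 K ⧸ 𝔭)} (hb : RedMat 𝔭 b b') (hc : RedMat 𝔭 c c') :
    letI : Field (𝓞 K ⧸ 𝔭) := Ideal.Quotient.field 𝔭
    RedMat 𝔭 (Matrix.comp _ _ _ _ _ (B3 b c)) (Matrix.comp _ _ _ _ _ (B3 b' c')) ∧
    RedMat 𝔭 (Matrix.comp _ _ _ _ _ (C3 b c)) (Matrix.comp _ _ _ _ _ (C3 b' c')) := by
  letI : Field (𝓞 K ⧸ 𝔭) := Ideal.Quotient.field 𝔭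
  have h𝔭' : 𝔭.IsPrime := h𝔭.isPrime
  have h20 : (2 : 𝓞 K ⧸ 𝔭) ≠ 0 := by exact_mod_cast natCast_ne h2
  have h30 : (3 : 𝓞 K ⧸ 𝔭) ≠ 0 := by exact_mod_cast natCast_ne h3
  have h40 : (4 : 𝓞 K ⧸ 𝔭) ≠ 0 := by
    rw [show (4 : 𝓞 K ⧸ 𝔭) = 2 * 2 by norm_num]; exact mul_ne_zero h20 h20
  have h60 : (6 : 𝓞 K ⧸ 𝔭) ≠ 0 := by
    rw [show (6 : 𝓞 K ⧸ 𝔭) = 2 * 3 by norm_num]; exact mul_ne_zero h20 h30
  have h90 : (9 : 𝓞 K ⧸ 𝔭) ≠ 0 := by
    rw [show (9 : 𝓞 K ⧸ 𝔭) = 3 * 3 by norm_num]; exact mul_ne_zero h30 h30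
  have h270 : (27 : 𝓞 K ⧸ 𝔭) ≠ 0 := by
    rw [show (27 : 𝓞 K ⧸ 𝔭) = 3 * 9 by norm_num]; exact mul_ne_zero h30 h90
  have r1 : ∀ l l', IsReduction 𝔭 ((1 : Matrix κ κ K) l l') ((1 : Matrix κ κ (𝓞 K ⧸ 𝔭)) l l') := by
    intro l l'
    rw [Matrix.one_apply, Matrix.one_apply]
    exact IsReduction.ite _ IsReduction.one IsReduction.zero
  have r12 : IsReduction 𝔭 (1 / 2 : K) (1 / 2 : 𝓞 K ⧸ 𝔭) :=
    IsReduction.div IsReduction.one (IsReduction.ofNat 2) h20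
  have r13 : IsReduction 𝔭 (1 / 3 : K) (1 / 3 : 𝓞 K ⧸ 𝔭) :=
    IsReduction.div IsReduction.one (IsReduction.ofNat 3) h30
  have r16 : IsReduction 𝔭 (1 / 6 : K) (1 / 6 : 𝓞 K ⧸ 𝔭) :=
    IsReduction.div IsReduction.one (IsReduction.ofNat 6) h60
  have r19 : IsReduction 𝔭 (1 / 9 : K) (1 / 9 : 𝓞 K ⧸ 𝔭) :=
    IsReduction.div IsReduction.one (IsReduction.ofNat 9) h90
  have r127 : IsReduction 𝔭 (1 / 27 : K) (1 / 27 : 𝓞 K ⧸ 𝔭) :=
    IsReduction.div IsReduction.one (IsReduction.ofNat 27) h270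
  have r34 : IsReduction 𝔭 (3 / 4 : K) (3 / 4 : 𝓞 K ⧸ 𝔭) :=
    IsReduction.div (IsReduction.ofNat 3) (IsReduction.ofNat 4) h40
  have r54 : IsReduction 𝔭 (5 / 4 : K) (5 / 4 : 𝓞 K ⧸ 𝔭) :=
    IsReduction.div (IsReduction.ofNat 5) (IsReduction.ofNat 4) h40
  have r94 : IsReduction 𝔭 (9 / 4 : K) (9 / 4 : 𝓞 K ⧸ 𝔭) :=
    IsReduction.div (IsReduction.ofNat 9) (IsReduction.ofNat 4) h40
  have r2 : IsReduction 𝔭 (2 : K) (2 : 𝓞 K ⧸ 𝔭) := IsReduction.ofNat 2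
  have r3 : IsReduction 𝔭 (3 : K) (3 : 𝓞 K ⧸ 𝔭) := IsReduction.ofNat 3
  have r4 : IsReduction 𝔭 (4 : K) (4 : 𝓞 K ⧸ 𝔭) := IsReduction.ofNat 4
  have r6 : IsReduction 𝔭 (6 : K) (6 : 𝓞 K ⧸ 𝔭) := IsReduction.ofNat 6
  constructor
  · rintro ⟨i, l⟩ ⟨j, l'⟩
    rw [Matrix.comp_apply, Matrix.comp_apply]
    fin_cases i <;> fin_cases j
    · exact (r12.mul ((hb l l').add (hc l l'))).neg
    · exact (r34.mul (hb l l')).sub (r54.mul (hc l l'))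
    · exact (r94.mul (hb l l')).sub (r34.mul (hc l l'))
    · exact IsReduction.zero
    · exact r12.mul (((r1 l l').sub (hb l l')).sub (hc l l'))
    · exact r12.mul (((r1 l l').sub (r3.mul (hb l l'))).sub (hc l l'))
    · exact IsReduction.zero
    · exact IsReduction.zero
    · exact hb l l'
  · rintro ⟨i, l⟩ ⟨j, l'⟩
    rw [Matrix.comp_apply, Matrix.comp_apply]
    fin_cases i <;> fin_cases j
    · exact r12.mul ((hb l l').add (hc l l'))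
    · exact (r54.mul (hc l l')).sub (r34.mul (hb l l'))
    · exact (r34.mul (hc l l')).sub (r94.mul (hb l l'))
    · exact r19.mul (((r1 l l').sub (r3.mul (hb l l'))).add (hc l l'))
    · exact r16.mul (((r3.mul (hb l l')).add (r3.mul (hc l l'))).sub (r1 l l'))
    · exact r12.mul (((r3.mul (hb l l')).add (hc l l')).sub (r1 l l'))
    · exact r127.mul (((r6.mul (hb l l')).add (r2.mul (hc l l'))).sub (r4.mul (r1 l l')))
    · exact r19.mul (((r2.mul (r1 l l')).sub (r3.mul (hb l l'))).add (hc l l'))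
    · exact r13.mul ((r2.mul (r1 l l')).sub (r3.mul (hb l l')))

variable [NumberField K]

lemma exists_char (𝔭 : Ideal (𝓞 K)) [h𝔭 : 𝔭.IsMaximal] :
    ∃ p : ℕ, p.Prime ∧ CharP (𝓞 K ⧸ 𝔭) p := by
  letI : Field (𝓞 K ⧸ 𝔭) := Ideal.Quotient.field 𝔭
  obtain ⟨p, hp⟩ := CharP.exists (𝓞 K ⧸ 𝔭)
  refine ⟨p, ?_, hp⟩
  rcases CharP.char_is_prime_or_zero (𝓞 K ⧸ 𝔭) p with h | h
  · exact h
  · exfalso
    subst h
    have : CharZero (𝓞 K ⧸ 𝔭) := CharP.charP_to_charZero _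
    exact not_finite (𝓞 K ⧸ 𝔭)

theorem condII_2 {b c : Matrix κ κ K} (h : CondII b c) :
    CondII (Matrix.comp _ _ _ _ _ (B2 b c)) (Matrix.comp _ _ _ _ _ (C2 b c)) := by
  obtain ⟨g, hg, h⟩ := h
  refine ⟨g * (2 : ℕ), mul_ne_zero hg (Nat.cast_ne_zero.mpr two_ne_zero), ?_⟩
  intro 𝔭 h𝔭 hg'
  have hg1 : g ∉ 𝔭 := fun h0 => hg' (Ideal.mul_mem_right _ _ h0)
  have hg2 : ((2 : ℕ) : 𝓞 K) ∉ 𝔭 := fun h0 => hg' (Ideal.mul_mem_left _ _ h0)
  obtain ⟨b', c', hb, hc, hpc⟩ := h 𝔭 hg1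
  letI : Field (𝓞 K ⧸ 𝔭) := Ideal.Quotient.field 𝔭
  obtain ⟨p, hp, hcp⟩ := exists_char 𝔭
  have : Fact p.Prime := ⟨hp⟩
  have h20 : (2 : 𝓞 K ⧸ 𝔭) ≠ 0 := by exact_mod_cast natCast_ne hg2
  obtain ⟨h1, h2⟩ := red2 hg2 hb hc
  exact ⟨_, _, h1, h2, pc2 p h20 hpc⟩

theorem condII_3 {b c : Matrix κ κ K} (h : CondII b c) :
    CondII (Matrix.comp _ _ _ _ _ (B3 b c)) (Matrix.comp _ _ _ _ _ (C3 b c)) := by
  obtain ⟨g, hg, h⟩ := h
  refine ⟨g * ((2 : ℕ) * (3 : ℕ)), mul_ne_zero hg (mul_ne_zero (Nat.cast_ne_zero.mpr two_ne_zero)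
    (Nat.cast_ne_zero.mpr three_ne_zero)), ?_⟩
  intro 𝔭 h𝔭 hg'
  have hg1 : g ∉ 𝔭 := fun h0 => hg' (Ideal.mul_mem_right _ _ h0)
  have hg2 : ((2 : ℕ) : 𝓞 K) ∉ 𝔭 := fun h0 =>
    hg' (Ideal.mul_mem_left _ _ (Ideal.mul_mem_right _ _ h0))
  have hg3 : ((3 : ℕ) : 𝓞 K) ∉ 𝔭 := fun h0 =>
    hg' (Ideal.mul_mem_left _ _ (Ideal.mul_mem_left _ _ h0))
  obtain ⟨b', c', hb, hc, hpc⟩ := h 𝔭 hg1
  letI : Field (𝓞 K ⧸ 𝔭) := Ideal.Quotient.field 𝔭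
  obtain ⟨p, hp, hcp⟩ := exists_char 𝔭
  have : Fact p.Prime := ⟨hp⟩
  have h20 : (2 : 𝓞 K ⧸ 𝔭) ≠ 0 := by exact_mod_cast natCast_ne hg2
  have h30 : (3 : 𝓞 K ⧸ 𝔭) ≠ 0 := by exact_mod_cast natCast_ne hg3
  obtain ⟨h1, h2⟩ := red3 hg2 hg3 hb hc
  exact ⟨_, _, h1, h2, pc3 p h20 h30 hpc⟩

end condII

section condI

variable {K : Type*} [Field K] {κ : Type*} [Fintype κ] [DecidableEq κ]

theorem condI_2 (σ : K →+* ℂ) {b c : Matrix κ κ K}
    (h : CondI σ (Matrix.comp _ _ _ _ _ (B2 b c)) (Matrix.comp _ _ _ _ _ (C2 b c))) :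
    CondI σ b c := by
  refine step_i σ h ?_
  intro Ω _ _ _ t D ht hD
  obtain ⟨w, hw⟩ := IsAlgClosed.exists_pow_nat_eq (1 - t) (n := 2) (by norm_num)
  have htw : t = 1 - w ^ 2 := by rw [hw]; ring
  have hne : ∀ a : ℂ, t ≠ algebraMap ℂ Ω a := by
    rintro a rfl
    exact ht (isAlgebraic_algebraMap a)
  have hw0 : w ≠ 0 := by
    rintro rfl
    apply hne 1
    rw [htw, map_one]; ring
  have hw1 : 1 - w ≠ 0 := by
    intro h0
    apply hne 0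
    rw [htw, map_zero, show w = 1 from (sub_eq_zero.mp h0).symm]; ring
  have hw2 : 1 + w ≠ 0 := by
    intro h0
    apply hne 0
    rw [htw, map_zero, show w = -1 by linear_combination h0]; ring
  refine ⟨(1 - w) / 2, wmat 2 κ w, ?_, fun v => mulVec_wmat (by norm_num) w v, ?_⟩
  · have hch : CharZero Ω := charZero_of_injective_algebraMap (algebraMap ℂ Ω).injective
    have h1 : t = 1 - (1 - 2 * ((1 - w) / 2)) ^ 2 := by rw [htw]; field_simp; ring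
    have h2 : (1 - w) / 2 ∈ IntermediateField.adjoin ℂ {(1 - w) / 2} :=
      IntermediateField.mem_adjoin_simple_self ℂ _
    have h20 : (2 : Ω) ∈ IntermediateField.adjoin ℂ {(1 - w) / 2} := by
      exact_mod_cast natCast_mem (IntermediateField.adjoin ℂ {(1 - w) / 2}) 2
    rw [h1]
    exact sub_mem (one_mem _) (pow_mem (sub_mem (one_mem _) (mul_mem h20 h2)) 2)
  · have h1 := inter2 (k := ℂ) (two_ne_zero) (toZ D) (toZ_algebraMap D) w hw0 hw1 hw2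
      (b.map σ) (c.map σ)
    rw [← htw] at h1
    have h2 : toZ D t = 1 := hD
    rw [h2, one_smul] at h1
    rw [B2_map, C2_map]
    exact h1

theorem condI_3 (σ : K →+* ℂ) {b c : Matrix κ κ K}
    (h : CondI σ (Matrix.comp _ _ _ _ _ (B3 b c)) (Matrix.comp _ _ _ _ _ (C3 b c))) :
    CondI σ b c := by
  refine step_i σ h ?_
  intro Ω _ _ _ t D ht hD
  obtain ⟨w, hw⟩ := IsAlgClosed.exists_root
    (Polynomial.C (27 / 4 : Ω) * (Polynomial.X ^ 2 * (1 + Polynomial.X)) - Polynomial.C t) (by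
      have : CharZero Ω := charZero_of_injective_algebraMap (algebraMap ℂ Ω).injective
      have h1 : (Polynomial.C (27 / 4 : Ω) * (Polynomial.X ^ 2 * (1 + Polynomial.X)) -
          Polynomial.C t).natDegree = 3 := by
        have h274 : (27 / 4 : Ω) ≠ 0 := by norm_num
        rw [natDegree_sub_C, natDegree_C_mul h274, natDegree_mul (pow_ne_zero _ X_ne_zero),
          natDegree_X_pow]
        · have : (1 + Polynomial.X : Polynomial Ω).natDegree = 1 := by compute_degree!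
          rw [this]
        · intro h0
          have h5 := congrArg (fun q => q.coeff 0) h0
          simp at h5
      intro h0
      rw [natDegree_eq_zero_iff_degree_le_zero.mpr (le_of_eq h0)] at h1
      omega)
  have htw : t = 27 / 4 * (w ^ 2 * (1 + w)) := by
    have h1 : (27 / 4 : Ω) * (w ^ 2 * (1 + w)) - t = 0 := by
      have h2 := hw
      rw [Polynomial.IsRoot, eval_sub, eval_C, eval_mul, eval_C, eval_mul, eval_pow, eval_X,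
        eval_add, eval_one, eval_X] at h2
      exact h2
    linear_combination -h1
  have hch : CharZero Ω := charZero_of_injective_algebraMap (algebraMap ℂ Ω).injective
  have hne : ∀ a : ℂ, t ≠ algebraMap ℂ Ω a := by
    rintro a rfl
    exact ht (isAlgebraic_algebraMap a)
  have hw0 : w ≠ 0 := by
    rintro rfl
    apply hne 0
    rw [htw, map_zero]; ring
  have hw1 : 1 + w ≠ 0 := by
    intro h0
    apply hne 0
    rw [htw, map_zero, h0]; ring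
  have hw2 : 3 * w - 1 ≠ 0 := by
    intro h0
    apply hne 1
    rw [htw, map_one, show w = 1 / 3 by linear_combination h0 / 3]; norm_num
  have hw3 : 3 * w + 2 ≠ 0 := by
    intro h0
    apply hne 1
    rw [htw, map_one, show w = -2 / 3 by linear_combination h0 / 3]; norm_num
  refine ⟨(1 + w) / (4 * w), wmat 3 κ w, ?_, fun v => mulVec_wmat (by norm_num) w v, ?_⟩
  · set x := (1 + w) / (4 * w) with hx
    have h2 : x ∈ IntermediateField.adjoin ℂ {x} := IntermediateField.mem_adjoin_simple_self ℂ _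
    have hn : ∀ n : ℕ, (n : Ω) ∈ IntermediateField.adjoin ℂ {x} := fun n => natCast_mem _ n
    have h4x : 4 * x - 1 = w⁻¹ := by rw [hx]; field_simp; ring
    have hwx : w = (4 * x - 1)⁻¹ := by rw [h4x, inv_inv]
    have h4 : (4 : Ω) ∈ IntermediateField.adjoin ℂ {x} := by exact_mod_cast hn 4
    have h27 : (27 : Ω) ∈ IntermediateField.adjoin ℂ {x} := by exact_mod_cast hn 27
    have hwm : w ∈ IntermediateField.adjoin ℂ {x} := by
      rw [hwx]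
      exact inv_mem (sub_mem (mul_mem h4 h2) (one_mem _))
    rw [htw]
    exact mul_mem (div_mem h27 h4) (mul_mem (pow_mem hwm 2) (add_mem (one_mem _) hwm))
  · have h1 := inter3 (k := ℂ) (two_ne_zero) (three_ne_zero) (toZ D) (toZ_algebraMap D) w hw0 hw1
      hw2 hw3 (b.map σ) (c.map σ)
    rw [← htw] at h1
    have h2 : toZ D t = 1 := hD
    rw [h2, one_smul] at h1
    rw [B3_map, C3_map]
    exact h1

end condI

end Pool.Agent.Y227.MR
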