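import Mathlib
import Pool.Agent.W432.PC.Points

set_option autoImplicit false

open Matrix NumberField Module

namespace Pool.Agent.Y227.MR

variable (K : Type*) [Field K] [NumberField K]

/-- Index type of an integral basis. -/
abbrev Nu := Free.ChooseBasisIndex ℤ (𝓞 K)

/-- For primes not dividing the discriminant, the product of the maximal ideals over `p` is `p`. -/
theorem dvd_of_mem {p : ℕ} (hp : p.Prime) (hpd : ¬ (p : ℤ) ∣ discr K) (z : Nu K → ℤ)
    (hz : ∀ 𝔭 : Ideal (𝓞 K), 𝔭.IsMaximal → (p : 𝓞 K) ∈ 𝔭 →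
      ∑ i, (z i : 𝓞 K) * RingOfIntegers.basis K i ∈ 𝔭) (i : Nu K) : (p : ℤ) ∣ z i := by
  classical
  have : Fact p.Prime := ⟨hp⟩
  set ω := RingOfIntegers.basis K with hω
  set a : 𝓞 K := ∑ i, (z i : 𝓞 K) * ω i with ha
  have hJZ : IsJacobsonRing ℤ := Pool.Agent.W432.PC.jac_int
  have hJ : IsJacobsonRing (𝓞 K) := isJacobsonRing_of_isIntegral (R := ℤ)
  -- `a ^ m ∈ (p)`
  have h1 : a ∈ (Ideal.span {(p : 𝓞 K)}).radical := by
    rw [Ideal.radical_eq_jacobson]
    rw [Ideal.jacobson, Ideal.mem_sInf]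
    rintro J ⟨hJ1, hJ2⟩
    exact hz J hJ2 (hJ1 (Ideal.mem_span_singleton_self _))
  obtain ⟨m, hm⟩ := h1
  rw [Ideal.mem_span_singleton] at hm
  obtain ⟨e, he⟩ := hm
  -- traces
  have h2 : ∀ j, ((Algebra.trace ℤ (𝓞 K) (a * ω j) : ℤ) : ZMod p) = 0 := by
    intro j
    rw [Algebra.trace_eq_matrix_trace ω]
    have h3 : ((Algebra.leftMulMatrix ω (a * ω j)).map (Int.castRingHom (ZMod p))) ^ m = 0 := by
      rw [← Matrix.map_pow, ← map_pow, mul_pow, he]
      ext i l
      rw [Matrix.map_apply, mul_assoc]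
      have h4 : (p : 𝓞 K) * (e * ω j ^ m) = (p : ℤ) • (e * ω j ^ m) := by
        rw [zsmul_eq_mul]; push_cast; rfl
      rw [h4, map_zsmul, Matrix.smul_apply, smul_eq_mul, map_mul]
      simp
    have h4 : IsNilpotent ((Algebra.leftMulMatrix ω (a * ω j)).map (Int.castRingHom (ZMod p))) :=
      ⟨m, h3⟩
    have h5 := Matrix.isNilpotent_trace_of_isNilpotent h4
    have h6 := h5.eq_zero
    rw [← h6, Matrix.trace, Matrix.trace, Int.cast_sum]
    rfl
  have h3 : (fun i => ((z i : ℤ) : ZMod p)) ᵥ*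
      ((Algebra.traceMatrix ℤ ω).map (Int.castRingHom (ZMod p))) = 0 := by
    ext j
    have h4 := h2 j
    rw [ha, Finset.sum_mul, map_sum] at h4
    rw [Matrix.vecMul, dotProduct, Pi.zero_apply, ← h4, Int.cast_sum]
    refine Finset.sum_congr rfl fun i _ => ?_
    have h6 : (Algebra.trace ℤ (𝓞 K)) ((z i : 𝓞 K) * (ω i * ω j)) =
        z i * (Algebra.trace ℤ (𝓞 K)) (ω i * ω j) := by
      rw [← zsmul_eq_mul, map_zsmul, smul_eq_mul]
    rw [Matrix.map_apply, Algebra.traceMatrix_apply, Algebra.traceForm_apply, mul_assoc, h6]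
    push_cast
    rfl
  have h4 : ((Algebra.traceMatrix ℤ ω).map (Int.castRingHom (ZMod p))).det ≠ 0 := by
    have h5 : ((Algebra.traceMatrix ℤ ω).map (Int.castRingHom (ZMod p))).det =
        Int.castRingHom (ZMod p) ((Algebra.traceMatrix ℤ ω).det) := (RingHom.map_det _ _).symm
    rw [h5, ← Algebra.discr_def, NumberField.discr_eq_discr]
    intro h6
    apply hpd
    exact (ZMod.intCast_zmod_eq_zero_iff_dvd _ _).mp h6
  have h5 := Matrix.eq_zero_of_vecMul_eq_zero h4 h3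
  exact (ZMod.intCast_zmod_eq_zero_iff_dvd _ _).mp (congrFun h5 i)

end Pool.Agent.Y227.MR
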