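import Pool.Agent.Y227.MR.Red
import Pool.Agent.Y227.MR.Unram

set_option autoImplicit false

open Matrix Polynomial NumberField Pool.Agent.W432.PC

namespace Pool.Agent.Y227.MR

section abstract1

variable {κ ν : Type*} [Fintype κ] [DecidableEq κ] [Fintype ν]

/-- The matrix with rows `om i • e l`. -/
def wres {E : Type*} [Field E] (κ : Type*) [DecidableEq κ] {ν : Type*} (om : ν → E) :
    Matrix (κ × ν) κ E :=
  Matrix.of fun i l => if i.1 = l then om i.2 else 0

lemma wres_mul {E : Type*} [Field E] {om : ν → E} {b : Matrix κ κ E}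
    {b' : Matrix (κ × ν) (κ × ν) E}
    (hb : ∀ l l' i, om i * b l l' = ∑ j, b' (l, i) (l', j) * om j) :
    wres κ om * b = b' * wres κ om := by
  ext ⟨l, i⟩ l'
  rw [Matrix.mul_apply, Matrix.mul_apply, Fintype.sum_prod_type]
  simp only [wres, Matrix.of_apply, ite_mul, zero_mul, Finset.sum_ite_eq, Finset.mem_univ, if_true,
    mul_ite, mul_zero]
  rw [hb, Finset.sum_comm]
  refine Finset.sum_congr rfl fun j _ => ?_
  rw [Finset.sum_ite_eq' Finset.univ l']
  simp

lemma inter_res {E : Type*} [Field E] (t : E) {om : ν → E} {b c : Matrix κ κ E}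
    {b' c' : Matrix (κ × ν) (κ × ν) E}
    (hb : ∀ l l' i, om i * b l l' = ∑ j, b' (l, i) (l', j) * om j)
    (hc : ∀ l l' i, om i * c l l' = ∑ j, c' (l, i) (l', j) * om j) :
    wres κ om * (t⁻¹ • b + (t - 1)⁻¹ • c) = (t⁻¹ • b' + (t - 1)⁻¹ • c') * wres κ om := by
  rw [Matrix.mul_add, Matrix.add_mul, Matrix.mul_smul, Matrix.mul_smul, Matrix.smul_mul,
    Matrix.smul_mul, wres_mul hb, wres_mul hc]

lemma vecMul_wres {E : Type*} [Field E] {om : ν → E} (ξ : κ × ν → E) (l : κ) :
    (ξ ᵥ* wres κ om) l = ∑ i, ξ (l, i) * om i := by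
  simp only [Matrix.vecMul, dotProduct, wres, Matrix.of_apply, Fintype.sum_prod_type, mul_ite,
    mul_zero]
  rw [Finset.sum_comm]
  refine Finset.sum_congr rfl fun j _ => ?_
  rw [Finset.sum_ite_eq' Finset.univ l]
  simp

end abstract1

section abstract2

variable {k₀ k : Type*} [Field k₀] [Field k] (j : k₀ →+* k)

/-- The map `k₀(X) → k(X)`. -/
noncomputable def ratMap : RatFunc k₀ →+* RatFunc k :=
  IsFractionRing.lift (A := k₀[X]) (g := (algebraMap k[X] (RatFunc k)).comp (mapRingHom j))
    ((IsFractionRing.injective k[X] (RatFunc k)).comp (Polynomial.map_injective j j.injective))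

lemma ratMap_algebraMap (q : k₀[X]) : ratMap j (algebraMap k₀[X] (RatFunc k₀) q) =
    algebraMap k[X] (RatFunc k) (q.map j) :=
  IsFractionRing.lift_algebraMap _ _

lemma ratMap_X : ratMap j RatFunc.X = RatFunc.X := by
  rw [← RatFunc.algebraMap_X, ratMap_algebraMap, Polynomial.map_X, RatFunc.algebraMap_X]

lemma ratMap_C (a : k₀) : ratMap j (RatFunc.C a) = RatFunc.C (j a) := by
  rw [← RatFunc.algebraMap_C, ratMap_algebraMap, Polynomial.map_C, RatFunc.algebraMap_C]

end abstract2

section abstract3

variable {κ ν : Type*} [Fintype κ] [DecidableEq κ] [Fintype ν] [DecidableEq ν]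

theorem res_abstract {k₀ : Type*} [Field k₀] (p : ℕ) [Fact p.Prime] [CharP k₀ p] {S : Type*}
    {k : S → Type*} [∀ s, Field (k s)] (j : ∀ s, k₀ →+* k s) (om : ∀ s, ν → k s)
    (b c : ∀ s, Matrix κ κ (k s)) (b' c' : Matrix (κ × ν) (κ × ν) k₀)
    (hb : ∀ s l l' i, om s i * b s l l' = ∑ i', j s (b' (l, i) (l', i')) * om s i')
    (hc : ∀ s l l' i, om s i * c s l l' = ∑ i', j s (c' (l, i) (l', i')) * om s i')
    (hinj : ∀ z : ν → k₀, (∀ s, ∑ i, j s (z i) * om s i = 0) → z = 0)
    (hpc : ∀ s, PCurvatureZero (b s) (c s)) : PCurvatureZero b' c' := by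
  have hcp : CharP (RatFunc k₀) p :=
    charP_of_injective_algebraMap (algebraMap k₀ (RatFunc k₀)).injective p
  have hcs : ∀ s, CharP (k s) p := fun s => charP_of_injective_ringHom (j s).injective p
  rw [pCurvatureZero_iff, ringChar.eq k₀ p]
  refine iterate_zero_of_transfer (S := S) (L := fun s => RatFunc (k s)) (p := p)
    (D := toZ (ddx k₀)) (t := RatFunc.X) (by rw [toZ_apply, ddx_X])
    (fun f => ddx_iterate (p := p) f) (δ := fun s => toZ (ddx (k s)))
    (fun s f => ddx_iterate (p := p) f) (j := fun s => ratMap (j s))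
    (fun s f => ?_) (A := fun s => coeff RatFunc.X (b s) (c s))
    (W := fun s => wres κ (fun i => RatFunc.C (om s i)))
    (fun s => ?_) (fun ξ hξ => ?_)
    (fun s => (pCurvatureZero_iff_full p).mp (hpc s))
  · rw [chain_rule (ratMap (j s)) (toZ (ddx (k s))) (fun a => by
      rw [ratMap_C, ← RatFunc.algebraMap_eq_C]; exact toZ_algebraMap _ _) f, ratMap_X, toZ_apply,
      ddx_X, one_mul]
    rfl
  · have h1 : (wres κ (fun i => RatFunc.C (om s i))).map (toZ (ddx (k s))) = 0 := by
      ext ⟨l, i⟩ l'
      simp only [Matrix.map_apply, wres, Matrix.of_apply, Matrix.zero_apply]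
      split_ifs
      · rw [← RatFunc.algebraMap_eq_C]; exact toZ_algebraMap _ _
      · exact map_zero _
    have h2 : (coeff RatFunc.X b' c').map (ratMap (j s)) =
        (RatFunc.X : RatFunc (k s))⁻¹ • (b'.map (fun a => RatFunc.C (j s a))) +
        (RatFunc.X - 1 : RatFunc (k s))⁻¹ • (c'.map (fun a => RatFunc.C (j s a))) := by
      ext i i'
      simp only [coeff, Matrix.map_apply, Matrix.add_apply, Matrix.smul_apply, smul_eq_mul,
        map_add, map_mul, map_inv₀, map_sub, map_one, ratMap_X, RatFunc.algebraMap_eq_C, ratMap_C]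
    rw [h1, zero_add, h2]
    apply inter_res
    · intro l l' i
      rw [Matrix.map_apply, RatFunc.algebraMap_eq_C, ← map_mul, hb, map_sum]
      simp only [map_mul, Matrix.map_apply]
    · intro l l' i
      rw [Matrix.map_apply, RatFunc.algebraMap_eq_C, ← map_mul, hc, map_sum]
      simp only [map_mul, Matrix.map_apply]
  · -- joint injectivity
    have h1 : ∀ l s, ∑ i, ratMap (j s) (ξ (l, i)) * RatFunc.C (om s i) = 0 := by
      intro l s
      have h2 := congrFun (hξ s) l
      rw [vecMul_wres] at h2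
      exact h2
    have h2 : ∀ l, (fun i => ξ (l, i)) = 0 := by
      intro l
      obtain ⟨⟨d, hd⟩, hd'⟩ := IsLocalization.exist_integer_multiples_of_finite
        (nonZeroDivisors k₀[X]) (fun i => ξ (l, i))
      choose q hq using hd'
      simp only [Algebra.smul_def] at hq
      have hd0 : algebraMap k₀[X] (RatFunc k₀) d ≠ 0 :=
        IsFractionRing.to_map_ne_zero_of_mem_nonZeroDivisors hd
      have h3 : ∀ s, ∑ i, (q i).map (j s) * C (om s i) = 0 := by
        intro s
        apply IsFractionRing.injective (k s)[X] (RatFunc (k s))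
        rw [map_sum, map_zero]
        have h4 : ∀ i, algebraMap (k s)[X] (RatFunc (k s)) ((q i).map (j s) * C (om s i)) =
            ratMap (j s) (algebraMap k₀[X] (RatFunc k₀) d) *
              (ratMap (j s) (ξ (l, i)) * RatFunc.C (om s i)) := by
          intro i
          rw [← mul_assoc, ← map_mul, ← hq i, ratMap_algebraMap, map_mul, RatFunc.algebraMap_C]
        simp only [h4]
        rw [← Finset.mul_sum, h1, mul_zero]
      have h4 : ∀ i, q i = 0 := by
        intro i
        ext m
        have h5 := hinj (fun i => (q i).coeff m) (fun s => by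
          have h6 := congrArg (fun f => f.coeff m) (h3 s)
          simp only [finsetSum_coeff, coeff_mul_C, Polynomial.coeff_map, coeff_zero] at h6
          exact h6)
        rw [coeff_zero]
        exact congrFun h5 i
      ext1 i
      have h7 := hq i
      rw [h4 i, map_zero] at h7
      rcases mul_eq_zero.mp h7.symm with h | h
      · exact absurd h hd0
      · exact h
    ext1 ⟨l, i⟩
    exact congrFun (h2 l) i

end abstract3

end Pool.Agent.Y227.MR
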