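import Pool.Agent.Y227.MR.ResNF

set_option autoImplicit false

open Matrix Polynomial NumberField Module

namespace Pool.Agent.Y227.MR

lemma IsReduction.intCast {K : Type*} [Field K] {𝔭 : Ideal (𝓞 K)} [h𝔭 : 𝔭.IsPrime] (n : ℤ) :
    IsReduction 𝔭 (n : K) (n : 𝓞 K ⧸ 𝔭) := by
  have h := IsReduction.ofInt (𝔭 := 𝔭) (n : 𝓞 K) (one_not_mem h𝔭)
  rw [map_intCast, map_intCast] at h
  exact h

variable {K : Type*} [Field K] [NumberField K] {κ : Type*} [Fintype κ] [DecidableEq κ]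

lemma exists_denominators (b c : Matrix κ κ K) : ∃ (n : ℤ) (yb yc : κ → κ → 𝓞 K), n ≠ 0 ∧
    (∀ l l', algebraMap (𝓞 K) K (yb l l') = (n : K) * b l l') ∧
    (∀ l l', algebraMap (𝓞 K) K (yc l l') = (n : K) * c l l') := by
  have hloc : IsLocalization (Algebra.algebraMapSubmonoid (𝓞 K) (nonZeroDivisors ℤ)) K :=
    IsIntegralClosure.isLocalization ℤ ℚ K (𝓞 K)
  obtain ⟨⟨s, hs⟩, hint⟩ := IsLocalization.exist_integer_multiples_of_finite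
    (Algebra.algebraMapSubmonoid (𝓞 K) (nonZeroDivisors ℤ))
    (fun x : Bool × κ × κ => if x.1 then b x.2.1 x.2.2 else c x.2.1 x.2.2)
  obtain ⟨n, hn, rfl⟩ := hs
  choose y hy using hint
  refine ⟨n, fun l l' => y (true, l, l'), fun l l' => y (false, l, l'),
    nonZeroDivisors.ne_zero hn, fun l l' => ?_, fun l l' => ?_⟩
  · rw [hy, Algebra.smul_def]
    simp
  · rw [hy, Algebra.smul_def]
    simp

/-- Relation modulo a maximal ideal. -/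
lemma mod_spec {𝔭 : Ideal (𝓞 K)} [h𝔭 : 𝔭.IsMaximal] {n : ℤ} (hn : (n : 𝓞 K ⧸ 𝔭) ≠ 0)
    {x : K} {y : 𝓞 K} (hy : algebraMap (𝓞 K) K y = (n : K) * x) {x' : 𝓞 K ⧸ 𝔭}
    (hx : IsReduction 𝔭 x x') (i : Nu K) :
    letI : Field (𝓞 K ⧸ 𝔭) := Ideal.Quotient.field 𝔭
    Ideal.Quotient.mk 𝔭 (RingOfIntegers.basis K i) * x' =
      ∑ j, ((rhoZ y i j : 𝓞 K ⧸ 𝔭) / (n : 𝓞 K ⧸ 𝔭)) *
        Ideal.Quotient.mk 𝔭 (RingOfIntegers.basis K j) := by
  letI : Field (𝓞 K ⧸ 𝔭) := Ideal.Quotient.field 𝔭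
  have h𝔭' : 𝔭.IsPrime := h𝔭.isPrime
  have h1 : IsReduction 𝔭 ((n : K) * x) ((n : 𝓞 K ⧸ 𝔭) * x') := (IsReduction.intCast n).mul hx
  have h2 : IsReduction 𝔭 ((n : K) * x) (Ideal.Quotient.mk 𝔭 y) := by
    rw [← hy]; exact IsReduction.ofInt y (one_not_mem h𝔭')
  have h3 := h1.unique h2
  have h4 := congrArg (Ideal.Quotient.mk 𝔭) (rhoZ_spec y i)
  rw [map_mul, map_sum] at h4
  apply mul_left_cancel₀ hn
  calc (n : 𝓞 K ⧸ 𝔭) * (Ideal.Quotient.mk 𝔭 (RingOfIntegers.basis K i) * x')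
      = Ideal.Quotient.mk 𝔭 (RingOfIntegers.basis K i) * Ideal.Quotient.mk 𝔭 y := by
        rw [← h3]; ring
    _ = _ := by
        rw [h4, Finset.mul_sum]
        refine Finset.sum_congr rfl fun j _ => ?_
        rw [map_mul, map_intCast]
        field_simp

theorem condII_res {b c : Matrix κ κ K} (h : CondII b c) :
    CondII (K := ℚ) (resMat b) (resMat c) := by
  classical
  obtain ⟨g, hg, h⟩ := h
  obtain ⟨n, yb, yc, hn, hyb, hyc⟩ := exists_denominators b c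
  set A : ℕ := Ideal.absNorm (Ideal.span {g}) with hA
  have hA0 : A ≠ 0 := by
    rw [hA, Ne, Ideal.absNorm_eq_zero_iff, Ideal.span_singleton_eq_bot]
    exact hg
  refine ⟨((n * discr K * A : ℤ) : 𝓞 ℚ), ?_, ?_⟩
  · rw [Int.cast_ne_zero]
    exact mul_ne_zero (mul_ne_zero hn (discr_ne_zero K)) (Int.natCast_ne_zero.mpr hA0)
  intro 𝔮 h𝔮 hG
  letI : Field (𝓞 ℚ ⧸ 𝔮) := Ideal.Quotient.field 𝔮
  have h𝔮' : 𝔮.IsPrime := h𝔮.isPrime
  obtain ⟨p, hp, hcp⟩ := exists_char 𝔮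
  have hfact : Fact p.Prime := ⟨hp⟩
  -- divisibility facts
  have hdvd : ∀ m : ℤ, (p : ℤ) ∣ m → (m : 𝓞 ℚ) ∈ 𝔮 := by
    intro m hm
    rw [← Ideal.Quotient.eq_zero_iff_mem, map_intCast]
    exact (CharP.intCast_eq_zero_iff (𝓞 ℚ ⧸ 𝔮) p m).mpr hm
  have hpn : ¬ (p : ℤ) ∣ n := fun h0 => hG (hdvd _ ((h0.mul_right _).mul_right _))
  have hpd : ¬ (p : ℤ) ∣ discr K := fun h0 => hG (hdvd _ ((h0.mul_left _).mul_right _))
  have hpA : ¬ (p : ℤ) ∣ (A : ℤ) := fun h0 => hG (hdvd _ (h0.mul_left _))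
  have hn0 : ((n : ℤ) : 𝓞 ℚ ⧸ 𝔮) ≠ 0 := fun h0 =>
    hpn ((CharP.intCast_eq_zero_iff (𝓞 ℚ ⧸ 𝔮) p n).mp h0)
  -- every element of the residue field is an integer
  have hint : ∀ z : 𝓞 ℚ ⧸ 𝔮, ∃ m : ℤ, (m : 𝓞 ℚ ⧸ 𝔮) = z := by
    intro z
    obtain ⟨a, rfl⟩ := Ideal.Quotient.mk_surjective z
    refine ⟨Rat.ringOfIntegersEquiv a, ?_⟩
    rw [← map_intCast (Ideal.Quotient.mk 𝔮)]
    congr 1
    apply Rat.ringOfIntegersEquiv.injective
    rw [map_intCast]; rfl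
  let S := {𝔭 : Ideal (𝓞 K) // 𝔭.IsMaximal ∧ (p : 𝓞 K) ∈ 𝔭}
  letI iF : ∀ s : S, Field (𝓞 K ⧸ s.1) := fun s => @Ideal.Quotient.field _ _ s.1 s.2.1
  have hmax : ∀ s : S, s.1.IsMaximal := fun s => s.2.1
  have hcs : ∀ s : S, CharP (𝓞 K ⧸ s.1) p := by
    intro s
    rw [CharP.charP_iff_prime_eq_zero hp, ← map_natCast (Ideal.Quotient.mk s.1)]
    exact Ideal.Quotient.eq_zero_iff_mem.mpr s.2.2
  have hgs : ∀ s : S, g ∉ s.1 := by
    intro s hgs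
    apply hpA
    rw [← CharP.intCast_eq_zero_iff (𝓞 K ⧸ s.1) p]
    push_cast
    rw [← map_natCast (Ideal.Quotient.mk s.1), Ideal.Quotient.eq_zero_iff_mem]
    exact (Ideal.span_singleton_le_iff_mem _).mpr hgs (Ideal.absNorm_mem _)
  have hns : ∀ s : S, ((n : ℤ) : 𝓞 K ⧸ s.1) ≠ 0 := fun s h0 =>
    hpn ((CharP.intCast_eq_zero_iff (𝓞 K ⧸ s.1) p n).mp h0)
  choose bs cs hbs hcs' hpc using fun s : S => @h s.1 (hmax s) (hgs s)
  -- the embeddings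
  let j : ∀ s : S, (𝓞 ℚ ⧸ 𝔮) →+* (𝓞 K ⧸ s.1) := fun s =>
    Ideal.Quotient.lift 𝔮 ((Int.castRingHom (𝓞 K ⧸ s.1)).comp Rat.ringOfIntegersEquiv.toRingHom)
      (by
        intro a ha
        change ((Rat.ringOfIntegersEquiv a : ℤ) : 𝓞 K ⧸ s.1) = 0
        rw [CharP.intCast_eq_zero_iff (𝓞 K ⧸ s.1) p,
          ← CharP.intCast_eq_zero_iff (𝓞 ℚ ⧸ 𝔮) p, ← map_intCast (Ideal.Quotient.mk 𝔮),
          Ideal.Quotient.eq_zero_iff_mem]
        have h1 : ((Rat.ringOfIntegersEquiv a : ℤ) : 𝓞 ℚ) = a := by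
          apply Rat.ringOfIntegersEquiv.injective
          rw [map_intCast]; rfl
        rw [h1]; exact ha)
  refine ⟨Matrix.of fun x x' => (rhoZ (yb x.1 x'.1) x.2 x'.2 : 𝓞 ℚ ⧸ 𝔮) / (n : 𝓞 ℚ ⧸ 𝔮),
    Matrix.of fun x x' => (rhoZ (yc x.1 x'.1) x.2 x'.2 : 𝓞 ℚ ⧸ 𝔮) / (n : 𝓞 ℚ ⧸ 𝔮), ?_, ?_, ?_⟩
  · rintro ⟨l, i⟩ ⟨l', i'⟩
    have h1 : (resMat b) (l, i) (l', i') = (rhoZ (yb l l') i i' : ℚ) / (n : ℚ) := by
      have hnQ : (n : ℚ) ≠ 0 := Int.cast_ne_zero.mpr hn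
      rw [resMat_apply, eq_div_iff hnQ, ← rho_algebraMap, hyb, map_mul, map_intCast]
      have h2 : ((n : ℤ) : Matrix (Nu K) (Nu K) ℚ) = (n : ℚ) • 1 := by
        rw [← Algebra.algebraMap_eq_smul_one, map_intCast]
      rw [h2, Matrix.smul_mul, Matrix.one_mul, Matrix.smul_apply, smul_eq_mul, mul_comm]
    rw [h1]
    exact IsReduction.div (IsReduction.intCast _) (IsReduction.intCast _) hn0
  · rintro ⟨l, i⟩ ⟨l', i'⟩
    have h1 : (resMat c) (l, i) (l', i') = (rhoZ (yc l l') i i' : ℚ) / (n : ℚ) := by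
      have hnQ : (n : ℚ) ≠ 0 := Int.cast_ne_zero.mpr hn
      rw [resMat_apply, eq_div_iff hnQ, ← rho_algebraMap, hyc, map_mul, map_intCast]
      have h2 : ((n : ℤ) : Matrix (Nu K) (Nu K) ℚ) = (n : ℚ) • 1 := by
        rw [← Algebra.algebraMap_eq_smul_one, map_intCast]
      rw [h2, Matrix.smul_mul, Matrix.one_mul, Matrix.smul_apply, smul_eq_mul, mul_comm]
    rw [h1]
    exact IsReduction.div (IsReduction.intCast _) (IsReduction.intCast _) hn0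
  · refine res_abstract p (S := S) (k := fun s => 𝓞 K ⧸ s.1) j
      (fun s i => Ideal.Quotient.mk s.1 (RingOfIntegers.basis K i)) bs cs _ _ ?_ ?_ ?_ hpc
    · intro s l l' i
      rw [mod_spec (h𝔭 := hmax s) (hns s) (hyb l l') (hbs s l l') i]
      refine Finset.sum_congr rfl fun i' _ => ?_
      rw [Matrix.of_apply, map_div₀, map_intCast, map_intCast]
    · intro s l l' i
      rw [mod_spec (h𝔭 := hmax s) (hns s) (hyc l l') (hcs' s l l') i]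
      refine Finset.sum_congr rfl fun i' _ => ?_
      rw [Matrix.of_apply, map_div₀, map_intCast, map_intCast]
    · intro z hz
      choose m hm using hint
      have h1 := dvd_of_mem K hp hpd (fun i => m (z i)) (by
        intro 𝔭 h𝔭 hp𝔭
        have h2 := hz ⟨𝔭, h𝔭, hp𝔭⟩
        rw [← Ideal.Quotient.eq_zero_iff_mem, map_sum, ← h2]
        refine Finset.sum_congr rfl fun i _ => ?_
        rw [map_mul, map_intCast]
        congr 1
        conv_rhs => rw [← hm (z i)]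
        rw [map_intCast])
      ext1 i
      rw [← hm (z i), Pi.zero_apply, CharP.intCast_eq_zero_iff (𝓞 ℚ ⧸ 𝔮) p]
      exact h1 i

end Pool.Agent.Y227.MR
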