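import Pool.Agent.Y227.MR.Res

set_option autoImplicit false

open Matrix Polynomial NumberField Module

namespace Pool.Agent.Y227.MR

variable {K : Type*} [Field K] [NumberField K]

/-- The transposed matrix of the multiplication by `x` in the integral basis. -/
noncomputable def rho : K →+* Matrix (Nu K) (Nu K) ℚ where
  toFun x := (Algebra.leftMulMatrix (integralBasis K) x)ᵀ
  map_one' := by rw [map_one, Matrix.transpose_one]
  map_zero' := by rw [map_zero, Matrix.transpose_zero]
  map_mul' x y := by rw [mul_comm x y, map_mul, Matrix.transpose_mul]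
  map_add' x y := by rw [map_add, Matrix.transpose_add]

lemma rho_apply (x : K) (i j : Nu K) :
    rho x i j = (integralBasis K).repr (x * integralBasis K i) j := by
  change (Algebra.leftMulMatrix (integralBasis K) x) j i = _
  rw [Algebra.leftMulMatrix_eq_repr_mul]

lemma rho_spec (x : K) (i : Nu K) :
    integralBasis K i * x = ∑ j, (rho x i j) • integralBasis K j := by
  simp only [rho_apply]
  rw [(integralBasis K).sum_repr, mul_comm]

/-- Integral version. -/
noncomputable def rhoZ (y : 𝓞 K) (i j : Nu K) : ℤ :=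
  (RingOfIntegers.basis K).repr (y * RingOfIntegers.basis K i) j

lemma rhoZ_spec (y : 𝓞 K) (i : Nu K) :
    RingOfIntegers.basis K i * y = ∑ j, (rhoZ y i j : 𝓞 K) * RingOfIntegers.basis K j := by
  have h1 := (RingOfIntegers.basis K).sum_repr (y * RingOfIntegers.basis K i)
  rw [mul_comm, ← h1]
  refine Finset.sum_congr rfl fun j _ => ?_
  rw [zsmul_eq_mul]; rfl

lemma rho_algebraMap (y : 𝓞 K) (i j : Nu K) :
    rho (algebraMap (𝓞 K) K y) i j = (rhoZ y i j : ℚ) := by
  rw [rho_apply, integralBasis_apply, ← map_mul, integralBasis_repr_apply]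
  rfl

variable {κ : Type*} [Fintype κ] [DecidableEq κ]

/-- Restriction of scalars of a matrix. -/
noncomputable def resMat : Matrix κ κ K →+* Matrix (κ × Nu K) (κ × Nu K) ℚ :=
  (Matrix.compRingEquiv κ (Nu K) ℚ).toRingHom.comp (rho (K := K)).mapMatrix

lemma resMat_apply (b : Matrix κ κ K) (l l' : κ) (i j : Nu K) :
    resMat b (l, i) (l', j) = rho (b l l') i j := rfl

theorem condI_res (σ : K →+* ℂ) (σ' : ℚ →+* ℂ) {b c : Matrix κ κ K}
    (h : CondI σ' (resMat b) (resMat c)) : CondI σ b c := by
  refine step_i σ h ?_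
  intro Ω _ _ _ t D ht hD
  have hspec : ∀ (x : K) (i : Nu K), algebraMap ℂ Ω (σ (integralBasis K i)) * algebraMap ℂ Ω (σ x) =
      ∑ j, algebraMap ℂ Ω (σ' (rho x i j)) * algebraMap ℂ Ω (σ (integralBasis K j)) := by
    intro x i
    rw [← map_mul, ← map_mul, rho_spec, map_sum, map_sum]
    refine Finset.sum_congr rfl fun j _ => ?_
    rw [Algebra.smul_def, map_mul, map_mul]
    congr 2
    exact RingHom.congr_fun (Subsingleton.elim (σ.comp (algebraMap ℚ K)) σ') (rho x i j)
  refine ⟨t, wres κ (fun i => algebraMap ℂ Ω (σ (integralBasis K i))),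
    IntermediateField.mem_adjoin_simple_self ℂ _, ?_, ?_⟩
  · intro v hv
    ext1 l
    have hne : Nonempty (Nu K) := inferInstance
    obtain ⟨i⟩ := hne
    have h1 := congrFun hv (l, i)
    have h2 : algebraMap ℂ Ω (σ (integralBasis K i)) * v l = 0 := by
      simpa [Matrix.mulVec, dotProduct, wres] using h1
    rcases mul_eq_zero.mp h2 with h3 | h3
    · exfalso
      rw [map_eq_zero, map_eq_zero] at h3
      exact (integralBasis K).ne_zero i h3
    · exact h3
  · have h1 : (wres κ (fun i => algebraMap ℂ Ω (σ (integralBasis K i)))).map D = 0 := by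
      ext ⟨l, i⟩ l'
      simp only [Matrix.map_apply, wres, Matrix.of_apply, Matrix.zero_apply]
      split_ifs
      · exact Derivation.map_algebraMap _ _
      · exact map_zero _
    rw [h1, zero_add, hD, one_smul]
    unfold coeff
    apply inter_res
    · intro l l' i
      exact hspec _ _
    · intro l l' i
      exact hspec _ _

end Pool.Agent.Y227.MR
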