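import Pool.Agent.Y227.MR.RF
import Pool.Agent.Y227.MR.Defs

set_option autoImplicit false

open Matrix Polynomial Pool.Agent.W432.PC

namespace Pool.Agent.Y227.MR

/-- Forget the scalars of a derivation. -/
def toZ {k E : Type*} [Field k] [Field E] [Algebra k E] (D : Derivation k E E) : ZDer E :=
  Derivation.mk' (AddMonoidHom.toIntLinearMap D.toLinearMap.toAddMonoidHom) (by
    intro a b
    change D (a * b) = a • D b + b • D a
    rw [Derivation.leibniz])

lemma toZ_apply {k E : Type*} [Field k] [Field E] [Algebra k E] (D : Derivation k E E) (f : E) :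
    toZ D f = D f := rfl

lemma toZ_algebraMap {k E : Type*} [Field k] [Field E] [Algebra k E] (D : Derivation k E E)
    (a : k) : toZ D (algebraMap k E a) = 0 := by
  rw [toZ_apply, Derivation.map_algebraMap]

/-- The matrix with rows `w ^ i • e l`. -/
def wmat {E : Type*} [Field E] (d : ℕ) (κ : Type*) [DecidableEq κ] (w : E) :
    Matrix (Fin d × κ) κ E :=
  Matrix.of fun i l => if i.2 = l then w ^ (i.1 : ℕ) else 0

/-- Multiple of a derivation. -/
def zsmul {E : Type*} [Field E] (u : E) (D : ZDer E) : ZDer E := u • D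

lemma zsmul_apply {E : Type*} [Field E] (u : E) (D : ZDer E) (f : E) : zsmul u D f = u * D f := rfl

section charp

variable {k : Type*} [Field k]

lemma coeff_map {E E' : Type*} [Field E] [Field E'] [Algebra k E] [Algebra k E'] (j : E →+* E')
    (hj : ∀ a : k, j (algebraMap k E a) = algebraMap k E' a) {ι : Type*} (t : E)
    (b c : Matrix ι ι k) : (coeff t b c).map j = coeff (j t) b c := by
  ext i l
  simp [coeff, hj]

variable {κ ι : Type*} [Fintype κ] [DecidableEq κ] [Fintype ι] [DecidableEq ι]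

lemma toZ_eq_ddx {D : Derivation k (RatFunc k) (RatFunc k)} (hD : D RatFunc.X = 1)
    (f : RatFunc k) : D f = ddx k f := by
  have h1 := chain_rule (RingHom.id (RatFunc k)) (toZ D) (fun a => by
    rw [RingHom.id_apply, ← RatFunc.algebraMap_eq_C]; exact toZ_algebraMap D a) f
  simp only [RingHom.id_apply] at h1
  rw [toZ_apply, toZ_apply, hD, one_mul] at h1
  exact h1

omit [DecidableEq ι] in
lemma pCurvatureZero_iff {b c : Matrix ι ι k} :
    PCurvatureZero b c ↔ ∀ v, (nab (toZ (ddx k)) (coeff RatFunc.X b c))^[ringChar k] v = 0 := by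
  constructor
  · rintro ⟨D, hD, h⟩ v
    rw [← h v]
    congr 1
    ext w i
    rw [nab_apply, toZ_apply, toZ_eq_ddx hD]
  · intro h
    exact ⟨ddx k, ddx_X k, h⟩

lemma ddx_iterate {p : ℕ} [hp : Fact p.Prime] [hc : CharP k p] (f : RatFunc k) : (toZ (ddx k))^[p] f = 0 := by
  refine iterate_eq_zero (toZ (ddx k)) (fun a => ?_) (φ := RatFunc.X) ?_ f
  · rw [← RatFunc.algebraMap_eq_C]; exact toZ_algebraMap _ a
  · rw [toZ_apply, ddx_X]

lemma pCurvatureZero_iff_full (p : ℕ) [hp : Fact p.Prime] [hc : CharP k p] {b c : Matrix ι ι k} :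
    PCurvatureZero b c ↔ Full (toZ (ddx k)) (coeff RatFunc.X b c) := by
  have hcp : CharP (RatFunc k) p :=
    charP_of_injective_algebraMap (algebraMap k (RatFunc k)).injective p
  rw [pCurvatureZero_iff, ringChar.eq k p]
  constructor
  · intro h
    exact full_of_iterate (t := RatFunc.X) (by rw [toZ_apply, ddx_X]) h
  · intro h v
    exact iterate_of_full (fun f => ddx_iterate (p := p) f) h v

omit [Fintype κ] in
lemma vecMul_wmat {E : Type*} [Field E] [Fintype κ] {d : ℕ} (w : E) (ξ : Fin d × κ → E) (l : κ) :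
    (ξ ᵥ* wmat d κ w) l = ∑ i, ξ (i, l) * w ^ (i : ℕ) := by
  simp only [Matrix.vecMul, dotProduct, wmat, Matrix.of_apply, Fintype.sum_prod_type, mul_ite,
    mul_zero, Finset.sum_ite_eq', Finset.mem_univ, if_true]

/-- Generic pushforward step for condition (ii). -/
theorem step_ii (p : ℕ) [hp : Fact p.Prime] [hc : CharP k p] {b c : Matrix κ κ k} {d : ℕ} (hd : 0 < d)
    {b' c' : Matrix (Fin d × κ) (Fin d × κ) k} {φ : k[X]} (hφd : φ.natDegree = d)
    (hφ' : derivative φ ≠ 0) {x : RatFunc k} (hx : Transcendental k x)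
    (hW : ∀ δ : ZDer (RatFunc k), (∀ a, δ (algebraMap k (RatFunc k) a) = 0) →
      (wmat d κ RatFunc.X).map δ + wmat d κ RatFunc.X * (δ x • coeff x b c) =
        (δ (algebraMap k[X] (RatFunc k) φ) • coeff (algebraMap k[X] (RatFunc k) φ) b' c') *
          wmat d κ RatFunc.X)
    (h : PCurvatureZero b c) : PCurvatureZero b' c' := by
  have hcp : CharP (RatFunc k) p :=
    charP_of_injective_algebraMap (algebraMap k (RatFunc k)).injective p
  rw [pCurvatureZero_iff_full (p := p)] at h
  obtain ⟨Y, hdet, hY⟩ := h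
  rw [pCurvatureZero_iff, ringChar.eq k p]
  set t : RatFunc k := algebraMap k[X] (RatFunc k) φ with ht
  have htr : Transcendental k t := by
    apply RatFunc.transcendental_of_ne_C
    rintro ⟨a, ha⟩
    rw [ht, ← RatFunc.algebraMap_C] at ha
    have h1 := IsFractionRing.injective k[X] (RatFunc k) ha
    rw [h1, natDegree_C] at hφd
    omega
  have hdt : ddx k t ≠ 0 := by
    rw [ht, ddx_algebraMap, Ne, map_eq_zero_iff _ (IsFractionRing.injective k[X] (RatFunc k))]
    exact hφ'
  let δ : ZDer (RatFunc k) := zsmul (ddx k t)⁻¹ (toZ (ddx k))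
  have hδ : ∀ f, δ f = (ddx k t)⁻¹ * ddx k f := fun f => rfl
  have hδt : δ t = 1 := by rw [hδ, inv_mul_cancel₀ hdt]
  have hδC : ∀ a, δ (algebraMap k (RatFunc k) a) = 0 := by
    intro a
    rw [hδ, Derivation.map_algebraMap, mul_zero]
  have hδC' : ∀ a, δ (RatFunc.C a) = 0 := by
    intro a; rw [← RatFunc.algebraMap_eq_C]; exact hδC a
  -- solutions of the old system
  have hfull : Full δ (δ x • coeff x b c) := by
    refine ⟨Y.map (emb x hx), ?_, ?_⟩
    · have h1 : (Y.map (emb x hx)).det = emb x hx Y.det := (RingHom.map_det _ _).symm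
      rw [h1]
      exact (_root_.map_ne_zero _).mpr hdet
    · have h1 : (Y.map (emb x hx)).map δ = δ x • (Y.map (toZ (ddx k))).map (emb x hx) := by
        ext i l
        simp only [Matrix.map_apply, Matrix.smul_apply, smul_eq_mul]
        rw [chain_rule (emb x hx) δ (fun a => by
          rw [emb_C]; exact hδC a) (Y i l), emb_X]
        rfl
      rw [h1, hY, Matrix.smul_mul]
      congr 1
      have h2 := coeff_map (emb x hx) (fun a => by
        rw [RatFunc.algebraMap_eq_C, emb_C, RatFunc.algebraMap_eq_C]) RatFunc.X b c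
      rw [emb_X] at h2
      rw [Matrix.map_mul, h2]
  have hW' : (wmat d κ RatFunc.X).map δ + wmat d κ RatFunc.X * (δ x • coeff x b c) =
      (coeff RatFunc.X b' c').map (emb t htr) * wmat d κ RatFunc.X := by
    rw [hW δ hδC, hδt, one_smul, coeff_map (emb t htr) (fun a => by
        rw [RatFunc.algebraMap_eq_C, emb_C, RatFunc.algebraMap_eq_C]), emb_X]
  exact iterate_zero_of_transfer (S := Unit) (L := fun _ => RatFunc k) (p := p)
    (D := toZ (ddx k)) (t := RatFunc.X) (by rw [toZ_apply, ddx_X])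
    (fun f => ddx_iterate (p := p) f) (δ := fun _ => δ)
    (fun _ f => iterate_eq_zero δ hδC' hδt f) (j := fun _ => emb t htr)
    (fun _ f => by
      rw [chain_rule (emb t htr) δ (fun a => by rw [emb_C]; exact hδC a) f, emb_X, hδt, one_mul]
      rfl)
    (A := fun _ => δ x • coeff x b c) (W := fun _ => wmat d κ RatFunc.X)
    (fun _ => hW')
    (fun ξ hξ => by
      ext1 ⟨i, l⟩
      have h1 : (fun i => ξ (i, l)) = 0 := by
        apply indep_of_natDegree hφd hd htr
        have h2 := congrFun (hξ ()) l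
        rw [vecMul_wmat] at h2
        exact h2
      exact congrFun h1 i)
    (fun _ => hfull)

end charp

section complex

variable {κ ι : Type*} [Fintype κ] [DecidableEq κ] [Fintype ι] [DecidableEq ι]

/-- Generic step for condition (i). -/
theorem step_i {K K' : Type*} [Field K] [Field K'] (σ : K →+* ℂ) {σ' : K' →+* ℂ}
    {b c : Matrix κ κ K} {b' c' : Matrix ι ι K'} (h : CondI σ' b' c')
    (hex : ∀ (Ω : Type) [Field Ω] [Algebra ℂ Ω] [IsAlgClosed Ω] (t : Ω) (D : Derivation ℂ Ω Ω),
      Transcendental ℂ t → D t = 1 → ∃ (x : Ω) (W : Matrix ι κ Ω),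
        t ∈ IntermediateField.adjoin ℂ {x} ∧
        (∀ v : κ → Ω, W *ᵥ v = 0 → v = 0) ∧
        W.map D + W * (D x • coeff x (b.map σ) (c.map σ)) =
          coeff t (b'.map σ') (c'.map σ') * W) : CondI σ b c := by
  obtain ⟨Ω, i1, i2, t, D, Y, h1, h2, h3, h4, h5, h6⟩ := h
  obtain ⟨x, W, hx, hinj, hW⟩ := hex Ω t D h2 h4
  have hle : IntermediateField.adjoin ℂ {t} ≤ IntermediateField.adjoin ℂ {x} := by
    rw [IntermediateField.adjoin_simple_le_iff]
    exact hx
  have halg : ∀ y : Ω, IsAlgebraic (IntermediateField.adjoin ℂ {x}) y := by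
    intro y
    obtain ⟨q, hq, hqy⟩ := h3 y
    refine ⟨q.map (IntermediateField.inclusion hle).toRingHom, ?_, ?_⟩
    · rw [Ne, Polynomial.map_eq_zero_iff (IntermediateField.inclusion hle).toRingHom.injective]
      exact hq
    · rw [Polynomial.aeval_def, Polynomial.eval₂_map]
      rw [Polynomial.aeval_def] at hqy
      exact hqy
  have htr : Transcendental ℂ x := by
    intro hxalg
    apply h2
    have h7 := (IntermediateField.isAlgebraic_adjoin_simple
      (isAlgebraic_iff_isIntegral.mp hxalg)).isAlgebraic ⟨t, hx⟩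
    exact (isAlgebraic_algebraMap_iff
      (algebraMap (IntermediateField.adjoin ℂ {x}) Ω).injective).mpr h7
  have hDx : D x ≠ 0 := by
    intro h0
    -- then `D` kills `ℂ(x)`, hence `t`
    have h7 : ∀ y ∈ IntermediateField.adjoin ℂ {x}, D y = 0 := by
      intro y hy
      induction hy using IntermediateField.adjoin_induction with
      | mem y hy => rw [Set.mem_singleton_iff.mp hy, h0]
      | algebraMap a => rw [Derivation.map_algebraMap]
      | add a b _ _ ha hb => rw [map_add, ha, hb, add_zero]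
      | inv a _ ha => rw [Derivation.leibniz_inv, ha, smul_zero]
      | mul a b _ _ ha hb => rw [Derivation.leibniz, ha, hb, smul_zero, smul_zero, add_zero]
    rw [h7 t hx] at h4
    exact zero_ne_one h4
  have hfull : Full (toZ D) (D x • coeff x (b.map σ) (c.map σ)) :=
    full_of_transfer (D := toZ D) hW hinj ⟨Y, h5, h6⟩
  obtain ⟨Z, hZ, hZ'⟩ := hfull
  refine ⟨Ω, i1, i2, x, (D x)⁻¹ • D, Z, h1, htr, halg, ?_, hZ, ?_⟩
  · rw [Derivation.smul_apply, smul_eq_mul, inv_mul_cancel₀ hDx]
  · have h7 : Z.map ((D x)⁻¹ • D) = (D x)⁻¹ • Z.map (toZ D) := by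
      ext i l
      rfl
    rw [h7, hZ', Matrix.smul_mul, smul_smul, inv_mul_cancel₀ hDx, one_smul]

omit [Fintype κ] in
lemma mulVec_wmat {E : Type*} [Field E] [Fintype κ] {d : ℕ} (hd : 0 < d) (w : E) (v : κ → E)
    (h : wmat d κ w *ᵥ v = 0) : v = 0 := by
  ext l
  have h1 := congrFun h (⟨0, hd⟩, l)
  simpa [Matrix.mulVec, dotProduct, wmat] using h1

end complex

end Pool.Agent.Y227.MR
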