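import Pool.Agent.Y227.MR.Inter

set_option autoImplicit false

open Matrix Polynomial NumberField

namespace Pool.Agent.Y227.MR

section charp

variable {k : Type*} [Field k] {κ : Type*} [Fintype κ] [DecidableEq κ]

lemma X_ne_C (a : k) : (RatFunc.X : RatFunc k) ≠ RatFunc.C a := by
  intro h
  rw [← RatFunc.algebraMap_X, ← RatFunc.algebraMap_C] at h
  have h1 := IsFractionRing.injective k[X] (RatFunc k) h
  have h2 := congrArg natDegree h1
  rw [natDegree_X, natDegree_C] at h2
  exact one_ne_zero h2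

theorem pc2 (p : ℕ) [Fact p.Prime] [CharP k p] (h2 : (2 : k) ≠ 0) {b c : Matrix κ κ k}
    (h : PCurvatureZero b c) :
    PCurvatureZero (Matrix.comp _ _ _ _ _ (B2 b c)) (Matrix.comp _ _ _ _ _ (C2 b c)) := by
  have h2R : (2 : RatFunc k) ≠ 0 := by
    have := (_root_.map_ne_zero (algebraMap k (RatFunc k))).mpr h2
    rwa [map_ofNat] at this
  have hφ : algebraMap k[X] (RatFunc k) (1 - X ^ 2) = 1 - RatFunc.X ^ 2 := by
    rw [map_sub, map_one, map_pow, RatFunc.algebraMap_X]
  refine step_ii p (b := b) (c := c) (d := 2) (by norm_num) (φ := 1 - X ^ 2)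
    (x := (1 - RatFunc.X) / 2) ?_ ?_ ?_ ?_ h
  · compute_degree!
  · rw [derivative_sub, derivative_one, derivative_X_pow]
    intro h0
    have h3 := congrArg (fun q => q.coeff 1) h0
    simp at h3
    exact h2 h3
  · apply RatFunc.transcendental_of_ne_C
    rintro ⟨a, ha⟩
    apply X_ne_C (1 - 2 * a)
    rw [map_sub, map_mul, map_one, ← ha, map_ofNat]
    field_simp
    ring
  · intro δ hδ
    rw [hφ]
    refine inter2 h2 δ hδ RatFunc.X ?_ ?_ ?_ b c
    · exact RatFunc.X_ne_zero
    · intro h0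
      exact X_ne_C (1 : k) (by rw [map_one]; exact (sub_eq_zero.mp h0).symm)
    · intro h0
      exact X_ne_C (-1 : k) (by rw [map_neg, map_one]; linear_combination h0)

theorem pc3 (p : ℕ) [Fact p.Prime] [CharP k p] (h2 : (2 : k) ≠ 0) (h3 : (3 : k) ≠ 0)
    {b c : Matrix κ κ k} (h : PCurvatureZero b c) :
    PCurvatureZero (Matrix.comp _ _ _ _ _ (B3 b c)) (Matrix.comp _ _ _ _ _ (C3 b c)) := by
  have h4 : (4 : k) ≠ 0 := by
    rw [show (4 : k) = 2 * 2 by norm_num]; exact mul_ne_zero h2 h2
  have h9 : (9 : k) ≠ 0 := by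
    rw [show (9 : k) = 3 * 3 by norm_num]; exact mul_ne_zero h3 h3
  have h27 : (27 : k) ≠ 0 := by
    rw [show (27 : k) = 3 * 9 by norm_num]; exact mul_ne_zero h3 h9
  have h274 : (27 / 4 : k) ≠ 0 := div_ne_zero h27 h4
  have h2R : (2 : RatFunc k) ≠ 0 := by
    have := (_root_.map_ne_zero (algebraMap k (RatFunc k))).mpr h2
    rwa [map_ofNat] at this
  have h4R : (4 : RatFunc k) ≠ 0 := by
    have := (_root_.map_ne_zero (algebraMap k (RatFunc k))).mpr h4
    rwa [map_ofNat] at this
  have hX : (RatFunc.X : RatFunc k) ≠ 0 := RatFunc.X_ne_zero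
  have hφ : algebraMap k[X] (RatFunc k) (C (27 / 4) * (X ^ 2 * (1 + X))) =
      27 / 4 * (RatFunc.X ^ 2 * (1 + RatFunc.X)) := by
    rw [map_mul, map_mul, map_pow, map_add, map_one, RatFunc.algebraMap_X, RatFunc.algebraMap_C,
      map_div₀, map_ofNat, map_ofNat]
  refine step_ii p (b := b) (c := c) (d := 3) (by norm_num) (φ := C (27 / 4) * (X ^ 2 * (1 + X)))
    (x := (1 + RatFunc.X) / (4 * RatFunc.X)) ?_ ?_ ?_ ?_ h
  · rw [natDegree_C_mul h274, natDegree_mul (pow_ne_zero _ X_ne_zero), natDegree_X_pow]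
    · have : (1 + X : k[X]).natDegree = 1 := by compute_degree!
      rw [this]
    · intro h0
      have h5 := congrArg (fun q => q.coeff 0) h0
      simp at h5
  · intro h0
    have h5 := congrArg (fun q => q.coeff 1) h0
    rw [show (C (27 / 4) * (X ^ 2 * (1 + X)) : k[X]) = C (27 / 4) * (X ^ 2 + X ^ 3) by ring,
      derivative_mul, derivative_C, derivative_add, derivative_X_pow, derivative_X_pow] at h5
    simp at h5
    rcases h5 with (h5 | h5) | h5
    · exact h27 h5
    · exact h4 h5
    · exact h2 h5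
  · apply RatFunc.transcendental_of_ne_C
    rintro ⟨a, ha⟩
    rw [div_eq_iff (mul_ne_zero h4R hX)] at ha
    have h5 : algebraMap k[X] (RatFunc k) (1 + X) =
        algebraMap k[X] (RatFunc k) (C a * (C 4 * X)) := by
      rw [map_add, map_mul, map_mul, map_one, RatFunc.algebraMap_X, RatFunc.algebraMap_C,
        RatFunc.algebraMap_C, map_ofNat, ha]
    have h6 := IsFractionRing.injective k[X] (RatFunc k) h5
    have h7 := congrArg (fun q => q.coeff 0) h6
    simp at h7
  · intro δ hδ
    rw [hφ]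
    refine inter3 h2 h3 δ hδ RatFunc.X hX ?_ ?_ ?_ b c
    · intro h0
      exact X_ne_C (-1 : k) (by rw [map_neg, map_one]; linear_combination h0)
    · intro h0
      have h3R : (3 : RatFunc k) ≠ 0 := by
        have := (_root_.map_ne_zero (algebraMap k (RatFunc k))).mpr h3
        rwa [map_ofNat] at this
      apply X_ne_C (1 / 3 : k)
      rw [map_div₀, map_one, map_ofNat]
      field_simp
      linear_combination h0
    · intro h0
      have h3R : (3 : RatFunc k) ≠ 0 := by
        have := (_root_.map_ne_zero (algebraMap k (RatFunc k))).mpr h3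
        rwa [map_ofNat] at this
      apply X_ne_C (-2 / 3 : k)
      rw [map_div₀, map_neg, map_ofNat, map_ofNat]
      field_simp
      linear_combination h0

end charp

section natural

variable {k k' : Type*} [Field k] [Field k'] {κ : Type*} [DecidableEq κ]

omit [DecidableEq κ] in
lemma B2_map (σ : k →+* k') (b c : Matrix κ κ k) :
    (Matrix.comp _ _ _ _ _ (B2 b c)).map σ =
      Matrix.comp _ _ _ _ _ (B2 (b.map σ) (c.map σ)) := by
  ext ⟨i, l⟩ ⟨j, l'⟩
  rw [Matrix.map_apply, Matrix.comp_apply, Matrix.comp_apply]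
  fin_cases i <;> fin_cases j <;>
    simp only [B2, Matrix.of_apply, Matrix.cons_val', Matrix.cons_val_zero,
      Matrix.cons_val_one, Matrix.cons_val_fin_one, Matrix.cons_val, Fin.zero_eta, Fin.mk_one,
      Fin.reduceFinMk, Matrix.smul_apply, Matrix.add_apply, Matrix.sub_apply, Matrix.neg_apply,
      Matrix.zero_apply, smul_eq_mul, map_mul, map_add, map_sub, map_neg, map_zero, map_div₀,
      map_one, map_ofNat, Matrix.one_apply, Matrix.map_apply, apply_ite σ]

lemma C2_map (σ : k →+* k') (b c : Matrix κ κ k) :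
    (Matrix.comp _ _ _ _ _ (C2 b c)).map σ =
      Matrix.comp _ _ _ _ _ (C2 (b.map σ) (c.map σ)) := by
  ext ⟨i, l⟩ ⟨j, l'⟩
  rw [Matrix.map_apply, Matrix.comp_apply, Matrix.comp_apply]
  fin_cases i <;> fin_cases j <;>
    simp only [C2, Matrix.of_apply, Matrix.cons_val', Matrix.cons_val_zero,
      Matrix.cons_val_one, Matrix.cons_val_fin_one, Matrix.cons_val, Fin.zero_eta, Fin.mk_one,
      Fin.reduceFinMk, Matrix.smul_apply, Matrix.add_apply, Matrix.sub_apply, Matrix.neg_apply,
      Matrix.zero_apply, smul_eq_mul, map_mul, map_add, map_sub, map_neg, map_zero, map_div₀,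
      map_one, map_ofNat, Matrix.one_apply, Matrix.map_apply, apply_ite σ]

lemma B3_map (σ : k →+* k') (b c : Matrix κ κ k) :
    (Matrix.comp _ _ _ _ _ (B3 b c)).map σ =
      Matrix.comp _ _ _ _ _ (B3 (b.map σ) (c.map σ)) := by
  ext ⟨i, l⟩ ⟨j, l'⟩
  rw [Matrix.map_apply, Matrix.comp_apply, Matrix.comp_apply]
  fin_cases i <;> fin_cases j <;>
    simp only [B3, Matrix.of_apply, Matrix.cons_val', Matrix.cons_val_zero,
      Matrix.cons_val_one, Matrix.cons_val_fin_one, Matrix.cons_val, Fin.zero_eta, Fin.mk_one,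
      Fin.reduceFinMk, Matrix.smul_apply, Matrix.add_apply, Matrix.sub_apply, Matrix.neg_apply,
      Matrix.zero_apply, smul_eq_mul, map_mul, map_add, map_sub, map_neg, map_zero, map_div₀,
      map_one, map_ofNat, Matrix.one_apply, Matrix.map_apply, apply_ite σ]

lemma C3_map (σ : k →+* k') (b c : Matrix κ κ k) :
    (Matrix.comp _ _ _ _ _ (C3 b c)).map σ =
      Matrix.comp _ _ _ _ _ (C3 (b.map σ) (c.map σ)) := by
  ext ⟨i, l⟩ ⟨j, l'⟩
  rw [Matrix.map_apply, Matrix.comp_apply, Matrix.comp_apply]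
  fin_cases i <;> fin_cases j <;>
    simp only [C3, Matrix.of_apply, Matrix.cons_val', Matrix.cons_val_zero,
      Matrix.cons_val_one, Matrix.cons_val_fin_one, Matrix.cons_val, Fin.zero_eta, Fin.mk_one,
      Fin.reduceFinMk, Matrix.smul_apply, Matrix.add_apply, Matrix.sub_apply, Matrix.neg_apply,
      Matrix.zero_apply, smul_eq_mul, map_mul, map_add, map_sub, map_neg, map_zero, map_div₀,
      map_one, map_ofNat, Matrix.one_apply, Matrix.map_apply, apply_ite σ]

end natural

end Pool.Agent.Y227.MR
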